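import Pool.Agent.helper88.PF.Re

/-!
# MP_0b485e_lc: decidable fragments of the theory of `E*`

Part 1: sentences of the language `∪, ∩, 0, 1` in prenex form, their semantics in a bounded lattice.
Part 2: the lattice `E*`.
Part 3: computably enumerable functions into finite lattices, quantifier prefixes, the finite game.
-/

namespace PF

noncomputable section

/-! ## Part 1: syntax -/

/-- terms of the language `∪, ∩, 0, 1` -/
inductive Tm : Type
  | var (i : ℕ)
  | bot
  | top
  | sup (a b : Tm)
  | inf (a b : Tm)

/-- quantifier-free formulas -/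
inductive Fm : Type
  | eq (a b : Tm)
  | neg (a : Fm)
  | and (a b : Fm)
  | or (a b : Fm)

/-- the value of a term; `e i` is the value of the variable `i` -/
def Tm.ev {L : Type} [Lattice L] [BoundedOrder L] (e : ℕ → L) : Tm → L
  | var i => e i
  | bot => ⊥
  | top => ⊤
  | sup a b => a.ev e ⊔ b.ev e
  | inf a b => a.ev e ⊓ b.ev e

/-- truth of a quantifier-free formula -/
def Fm.Holds {L : Type} [Lattice L] [BoundedOrder L] (e : ℕ → L) : Fm → Prop
  | eq a b => a.ev e = b.ev e
  | neg a => ¬ a.Holds e
  | and a b => a.Holds e ∧ b.Holds e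
  | or a b => a.Holds e ∨ b.Holds e

/-- Truth in the bounded lattice `L` of the formula with the quantifier prefix `q` (`true` stands for
`∀`, `false` for `∃`) and the matrix `φ`. The variable `i` of `φ` is bound by the quantifier number `i` of
the prefix, counted from the right (the last quantifier has the number `0`); `e` is the list of the values of
the variables which are already bound, the last one first. -/
def Sat (L : Type) [Lattice L] [BoundedOrder L] : List Bool → Fm → List L → Prop
  | [], φ, e => φ.Holds (fun i => e.getD i ⊥)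
  | true :: q, φ, e => ∀ x : L, Sat L q φ (x :: e)
  | false :: q, φ, e => ∃ x : L, Sat L q φ (x :: e)

/-- the variable `i` occurs in the term -/
def Tm.Occ (i : ℕ) : Tm → Prop
  | var j => i = j
  | bot => False
  | top => False
  | sup a b => a.Occ i ∨ b.Occ i
  | inf a b => a.Occ i ∨ b.Occ i

/-- `φ.Pol F true`: every atom which occurs negatively in `φ` (that is under an odd number of negations) contains
only variables `i` with `F i`. `φ.Pol F false`: the same for the atoms which occur positively. -/
def Fm.Pol (F : ℕ → Prop) : Fm → Bool → Prop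
  | eq _ _, true => True
  | eq a b, false => ∀ i, a.Occ i ∨ b.Occ i → F i
  | neg a, s => a.Pol F (!s)
  | and a b, s => a.Pol F s ∧ b.Pol F s
  | or a b, s => a.Pol F s ∧ b.Pol F s

/-- A term as a string of symbols in postfix notation (an algorithm reads sentences as strings):
`0, 1` the constants, `2, 3` union and intersection, `8 + i` the variable `i`. -/
def Tm.str : Tm → List ℕ
  | var i => [8 + i]
  | bot => [0]
  | top => [1]
  | sup a b => a.str ++ b.str ++ [2]
  | inf a b => a.str ++ b.str ++ [3]

/-- A formula as a string of symbols: `4` equality, `5, 6, 7` not, and, or. -/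
def Fm.str : Fm → List ℕ
  | eq a b => a.str ++ b.str ++ [4]
  | neg a => a.str ++ [5]
  | and a b => a.str ++ b.str ++ [6]
  | or a b => a.str ++ b.str ++ [7]

/-! ## Part 2: the lattice of c.e. sets modulo finite sets -/

/-- computably enumerable sets -/
def CES : Type := {A : Set ℕ // REPred (fun n => n ∈ A)}

/-- equality up to a finite set -/
def eqStar (A B : CES) : Prop := (symmDiff A.1 B.1).Finite

theorem eqStar_equiv : Equivalence eqStar := by
  refine ⟨?_, ?_, ?_⟩
  · intro A
    unfold eqStar
    rw [symmDiff_self]
    exact Set.finite_empty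
  · intro A B h
    unfold eqStar at h ⊢
    rw [symmDiff_comm]
    exact h
  · intro A B C h1 h2
    unfold eqStar at h1 h2 ⊢
    exact (h1.union h2).subset (symmDiff_triangle A.1 B.1 C.1)

instance starSetoid : Setoid CES := ⟨eqStar, eqStar_equiv⟩

/-- the lattice `E*` -/
def EStar : Type := Quotient starSetoid

namespace CES

/-- union -/
def union (A B : CES) : CES := ⟨A.1 ∪ B.1, re_or A.2 B.2⟩

/-- intersection -/
def inter (A B : CES) : CES := ⟨A.1 ∩ B.1, re_and A.2 B.2⟩

/-- the empty set -/
def empty : CES := ⟨∅, re_const False⟩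

/-- the set of all numbers -/
def univ : CES := ⟨Set.univ, re_const True⟩

end CES

theorem eqStar_iff {A B : CES} : eqStar A B ↔ (A.1 \ B.1).Finite ∧ (B.1 \ A.1).Finite := by
  unfold eqStar
  rw [Set.symmDiff_def, Set.finite_union]

theorem fin_diff_trans {A B C : Set ℕ} (h1 : (A \ B).Finite) (h2 : (B \ C).Finite) :
    (A \ C).Finite := by
  refine (h1.union h2).subset ?_
  rintro x ⟨hA, hC⟩
  by_cases hB : x ∈ B
  · exact Or.inr ⟨hB, hC⟩
  · exact Or.inl ⟨hA, hB⟩

namespace EStar

/-- the class of a c.e. set -/
def mk (A : CES) : EStar := Quotient.mk starSetoid A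

theorem mk_eq {A B : CES} : mk A = mk B ↔ (symmDiff A.1 B.1).Finite :=
  ⟨fun h => Quotient.exact h, fun h => Quotient.sound h⟩

/-- `A ≤ B` in `E*` -/
def le : EStar → EStar → Prop :=
  Quotient.lift₂ (fun A B : CES => (A.1 \ B.1).Finite) (by
    intro A B A' B' hA hB
    have hA' := eqStar_iff.1 hA
    have hB' := eqStar_iff.1 hB
    apply propext
    constructor
    · intro h
      exact fin_diff_trans hA'.2 (fin_diff_trans h hB'.1)
    · intro h
      exact fin_diff_trans hA'.1 (fin_diff_trans h hB'.2))

/-- union in `E*` -/
def sup : EStar → EStar → EStar :=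
  Quotient.map₂ CES.union (by
    intro A A' hA B B' hB
    have hA' := eqStar_iff.1 hA
    have hB' := eqStar_iff.1 hB
    refine eqStar_iff.2 ⟨?_, ?_⟩
    · refine (hA'.1.union hB'.1).subset ?_
      rintro x ⟨h1 | h1, h2⟩
      · exact Or.inl ⟨h1, fun h => h2 (Or.inl h)⟩
      · exact Or.inr ⟨h1, fun h => h2 (Or.inr h)⟩
    · refine (hA'.2.union hB'.2).subset ?_
      rintro x ⟨h1 | h1, h2⟩
      · exact Or.inl ⟨h1, fun h => h2 (Or.inl h)⟩
      · exact Or.inr ⟨h1, fun h => h2 (Or.inr h)⟩)

/-- intersection in `E*` -/
def inf : EStar → EStar → EStar :=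
  Quotient.map₂ CES.inter (by
    intro A A' hA B B' hB
    have hA' := eqStar_iff.1 hA
    have hB' := eqStar_iff.1 hB
    refine eqStar_iff.2 ⟨?_, ?_⟩
    · refine (hA'.1.union hB'.1).subset ?_
      rintro x ⟨⟨h1, h2⟩, h3⟩
      by_cases hx : x ∈ A'.1
      · exact Or.inr ⟨h2, fun h => h3 ⟨hx, h⟩⟩
      · exact Or.inl ⟨h1, hx⟩
    · refine (hA'.2.union hB'.2).subset ?_
      rintro x ⟨⟨h1, h2⟩, h3⟩
      by_cases hx : x ∈ A.1
      · exact Or.inr ⟨h2, fun h => h3 ⟨hx, h⟩⟩
      · exact Or.inl ⟨h1, hx⟩)

/-- `E*` is a lattice with the operations induced by union and intersection -/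
instance : Lattice EStar where
  le := le
  sup := sup
  inf := inf
  le_refl := by
    intro a
    induction a using Quotient.inductionOn with
    | h A =>
      show (A.1 \ A.1).Finite
      rw [Set.sdiff_self]
      exact Set.finite_empty
  le_trans := by
    intro a b c
    induction a using Quotient.inductionOn with
    | h A =>
      induction b using Quotient.inductionOn with
      | h B =>
        induction c using Quotient.inductionOn with
        | h C =>
          intro h1 h2
          exact fin_diff_trans (A := A.1) (B := B.1) (C := C.1) h1 h2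
  le_antisymm := by
    intro a b
    induction a using Quotient.inductionOn with
    | h A =>
      induction b using Quotient.inductionOn with
      | h B =>
        intro h1 h2
        exact Quotient.sound (eqStar_iff.2 ⟨h1, h2⟩)
  le_sup_left := by
    intro a b
    induction a using Quotient.inductionOn with
    | h A =>
      induction b using Quotient.inductionOn with
      | h B =>
        show (A.1 \ (A.1 ∪ B.1)).Finite
        refine Set.finite_empty.subset ?_
        rintro x ⟨h1, h2⟩
        exact absurd (Or.inl h1) h2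
  le_sup_right := by
    intro a b
    induction a using Quotient.inductionOn with
    | h A =>
      induction b using Quotient.inductionOn with
      | h B =>
        show (B.1 \ (A.1 ∪ B.1)).Finite
        refine Set.finite_empty.subset ?_
        rintro x ⟨h1, h2⟩
        exact absurd (Or.inr h1) h2
  sup_le := by
    intro a b c
    induction a using Quotient.inductionOn with
    | h A =>
      induction b using Quotient.inductionOn with
      | h B =>
        induction c using Quotient.inductionOn with
        | h C =>
          intro h1 h2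
          show ((A.1 ∪ B.1) \ C.1).Finite
          have h3 : (A.1 \ C.1).Finite := h1
          have h4 : (B.1 \ C.1).Finite := h2
          refine (h3.union h4).subset ?_
          rintro x ⟨h5 | h5, h6⟩
          · exact Or.inl ⟨h5, h6⟩
          · exact Or.inr ⟨h5, h6⟩
  inf_le_left := by
    intro a b
    induction a using Quotient.inductionOn with
    | h A =>
      induction b using Quotient.inductionOn with
      | h B =>
        show ((A.1 ∩ B.1) \ A.1).Finite
        refine Set.finite_empty.subset ?_
        rintro x ⟨h1, h2⟩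
        exact absurd h1.1 h2
  inf_le_right := by
    intro a b
    induction a using Quotient.inductionOn with
    | h A =>
      induction b using Quotient.inductionOn with
      | h B =>
        show ((A.1 ∩ B.1) \ B.1).Finite
        refine Set.finite_empty.subset ?_
        rintro x ⟨h1, h2⟩
        exact absurd h1.2 h2
  le_inf := by
    intro a b c
    induction a using Quotient.inductionOn with
    | h A =>
      induction b using Quotient.inductionOn with
      | h B =>
        induction c using Quotient.inductionOn with
        | h C =>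
          intro h1 h2
          show (A.1 \ (B.1 ∩ C.1)).Finite
          have h3 : (A.1 \ B.1).Finite := h1
          have h4 : (A.1 \ C.1).Finite := h2
          refine (h3.union h4).subset ?_
          rintro x ⟨h5, h6⟩
          by_cases hx : x ∈ B.1
          · exact Or.inr ⟨h5, fun h => h6 ⟨hx, h⟩⟩
          · exact Or.inl ⟨h5, hx⟩

/-- `0 = [∅]`, `1 = [ω]` -/
instance : BoundedOrder EStar where
  top := mk CES.univ
  bot := mk CES.empty
  le_top := by
    intro a
    induction a using Quotient.inductionOn with
    | h A =>
      show (A.1 \ Set.univ).Finite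
      rw [Set.sdiff_univ]
      exact Set.finite_empty
  bot_le := by
    intro a
    induction a using Quotient.inductionOn with
    | h A =>
      show (∅ \ A.1).Finite
      rw [Set.empty_sdiff]
      exact Set.finite_empty

end EStar

/-! ## Part 3: c.e. functions into finite lattices -/

/-- for almost all numbers -/
def AE (P : ℕ → Prop) : Prop := {p | ¬ P p}.Finite

/-- c.e. functions with values in an ordered set: every set `{p | v ≤ a p}` is c.e. (For `α = Prop` these are
the c.e. sets, for `α = Fin k → Prop` the `k`-tuples of c.e. sets.) -/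
def CE {α : Type} [LE α] (a : ℕ → α) : Prop := ∀ v : α, REPred (fun p => v ≤ a p)

/-- computable functions with values in a set without a coding (used for finite sets) -/
def Cmp {X : Type} [Primcodable X] {α : Type} (f : X → α) : Prop :=
  ∀ v : α, ComputablePred (fun x => f x = v)

/-- every value which `a` takes constantly on some infinite computable set is in `θ` -/
def Wk {α : Type} (a : ℕ → α) (θ : α → Prop) : Prop :=
  ∀ R : ℕ → Prop, ComputablePred R → {p | R p}.Infinite → ∀ σ : α, (∀ p, R p → a p = σ) → θ σ

/-- finite lattices -/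
structure Po : Type 1 where
  C : Type
  [lat : Lattice C]
  [bot : OrderBot C]
  [fin : Finite C]

attribute [instance] Po.lat Po.bot Po.fin

instance : CoeSort Po Type := ⟨Po.C⟩

/-- the product -/
abbrev Po.prod (a b : Po) : Po := ⟨a.C × b.C⟩

/-- the lattice of all subsets -/
abbrev Po.set (a : Po) : Po := ⟨Set a.C⟩

/-- the power -/
abbrev Po.pow (a : Po) (M : ℕ) : Po := ⟨Fin M → a.C⟩

/-- the lattice with one element -/
abbrev Po.one : Po := ⟨Unit⟩

/-- the lattice with two elements -/
abbrev Po.two : Po := ⟨Prop⟩

/-- bit vectors -/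
abbrev Po.bits (k : ℕ) : Po := ⟨Fin k → Prop⟩

/-- Quantifier prefixes `∀ x ∈ K ∃ y ∀ x' ∃ y' ... ∀ x''` (they begin and end with a universal quantifier); the index is
the type of the tuples of all variables. -/
inductive Pre : Po → Type 1
  | one (α : Po) (K : α → Prop) : Pre α
  | snoc {Γ : Po} (π : Pre Γ) (β α : Po) : Pre (Γ.prod (β.prod α))

/-- the number of universal blocks -/
def Pre.len : {Γ : Po} → Pre Γ → ℕ
  | _, .one _ _ => 1
  | _, .snoc π _ _ => π.len + 1

/-- truth of the prefix `π` followed by the condition `M` on the tuple of all variables -/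
def Tr : {Γ : Po} → Pre Γ → ((ℕ → Γ) → Prop) → Prop
  | _, .one α K, M => ∀ x : ℕ → α, CE x → AE (fun p => K (x p)) → M x
  | _, .snoc π β α, M => Tr π (fun γ => ∃ y : ℕ → β, CE y ∧ ∀ x : ℕ → α, CE x →
      M (fun p => (γ p, y p, x p)))

/-- `D` is closed for the condition `θ` -/
def Cl {α β : Type} [LE α] [LE β] [Bot α] [Bot β] (D : Set (α × β)) (θ : α → β → Prop) : Prop :=
  (⊥, ⊥) ∈ D ∧ (∀ u u' v, u ≤ u' → (u, v) ∈ D → (u', v) ∈ D) ∧
    ∀ u v, (u, v) ∈ D → ∃ v', v ≤ v' ∧ (u, v') ∈ D ∧ θ u v'

/-- The finite criterion for the sentence `π ∃ y ∈ β, Θ` (for almost all positions): the last pair of quantifiers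
`∀ x ∈ α ∃ y ∈ β` is replaced by a new component `D ⊆ α × β` of the preceding existential variable. -/
def V : {Γ : Po} → Pre Γ → (β : Po) → (Γ → β → Prop) → Prop
  | _, .one α K, β, Θ => ∃ D : Set (α × β), Cl D (fun u v => K u → Θ u v)
  | _, .snoc π β₀ α, β, Θ => V π (β₀.prod (α.prod β).set)
      (fun γ t => Cl t.2 (fun u v => Θ (γ, t.1, u) v))

/-- Merging: the last universal variable is extended by a component in `A`. The result is the new type of tuples, the
new prefix, and the projections. -/
def mg : {Γ : Po} → Pre Γ → (A : Po) → (Γ' : Po) × Pre Γ' × (Γ' → Γ × A)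
  | _, .one α K, A => ⟨α.prod A, .one (α.prod A) (fun s => K s.1), fun s => s⟩
  | _, .snoc (Γ := Γ) π β α, A => ⟨Γ.prod (β.prod (α.prod A)), .snoc π β (α.prod A),
      fun s => ((s.1, s.2.1, s.2.2.1), s.2.2.2)⟩

/-! ## Part 4: sentences with a matrix in conjunctive normal form, the criterion -/

/-- the equation holds for the state `s` (`s i` is the truth value of the variable `i`) -/
def eqAt (s : ℕ → Prop) (a : Tm × Tm) : Prop := a.1.ev s ↔ a.2.ev s

/-- truth of a quantifier-free formula in `E*`; `s p i` says that the number `p` is in the set which is the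
value of the variable `i` -/
def Fm.HAE (s : ℕ → ℕ → Prop) : Fm → Prop
  | eq a b => AE (fun p => eqAt (s p) (a, b))
  | neg a => ¬ a.HAE s
  | and a b => a.HAE s ∧ b.HAE s
  | or a b => a.HAE s ∨ b.HAE s

/-- a clause: hypotheses (a conjunction of equations) and conclusions (a disjunction of equations) -/
abbrev Cla : Type := List (Tm × Tm) × List (Tm × Tm)

/-- truth of a conjunction of clauses -/
def ClsAE (cl : List Cla) (s : ℕ → ℕ → Prop) : Prop :=
  ∀ d ∈ cl, (∀ h ∈ d.1, AE (fun p => eqAt (s p) h)) → ∃ a ∈ d.2, AE (fun p => eqAt (s p) a)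

/-- the disjunction of two conjunctions of clauses -/
def dist {A : Type} (X Y : List (List A × List A)) : List (List A × List A) :=
  X.flatMap fun c => Y.map fun d => (c.1 ++ d.1, c.2 ++ d.2)

/-- conjunctive normal form of the formula (`true`) or of its negation (`false`) -/
def Fm.cnf : Fm → Bool → List Cla
  | eq a b, true => [([], [(a, b)])]
  | eq a b, false => [([(a, b)], [])]
  | neg a, s => a.cnf (!s)
  | and a b, true => a.cnf true ++ b.cnf true
  | and a b, false => dist (a.cnf false) (b.cnf false)
  | or a b, true => dist (a.cnf true) (b.cnf true)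
  | or a b, false => a.cnf false ++ b.cnf false

/-- The prefix `q` (`true` stands for `∀`) over c.e. sets, followed by `M`. `c p` is the list of the truth
values of `p ∈ A` for the sets `A` which are already chosen, the last one first. -/
def Qm : List Bool → ((ℕ → List Prop) → Prop) → (ℕ → List Prop) → Prop
  | [], M, c => M c
  | true :: q, M, c => ∀ x : ℕ → Prop, CE x → Qm q M (fun p => x p :: c p)
  | false :: q, M, c => ∃ x : ℕ → Prop, CE x ∧ Qm q M (fun p => x p :: c p)

/-- bit vectors as functions on all numbers -/
def bx {K : ℕ} (x : Fin K → Prop) (i : ℕ) : Prop := ∃ h : i < K, x ⟨i, h⟩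

/-- the state: the variables `0, ..., r-1` are given by `ζ`, the next `M` by `b`, the next `m` by `x`, the others by `τ` -/
def stt (r M m : ℕ) (ζ : ℕ → Prop) (b : List Prop) (x τ : ℕ → Prop) (i : ℕ) : Prop :=
  if i < r then ζ i else if i < r + M then b.getD (i - r) False
  else if i < r + M + m then x (i - r - M) else τ (i - r - M - m)

/-- the sentence with the prefix `∀ x_1 ... x_m, q.reverse, ∀ z_1 ... z_r`, where the other variables have the values `w` -/
def Smid (m : ℕ) (q : List Bool) (r : ℕ) (cl : List Cla) (w : ℕ → ℕ → Prop) : Prop :=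
  ∀ x : ℕ → Po.bits m, CE x → Qm q.reverse (fun c => ∀ z : ℕ → Po.bits r, CE z →
    ClsAE cl (fun p => stt r q.length m (bx (z p)) (c p) (bx (x p)) (w p))) (fun _ => [])

/-- the hypotheses of the clauses contain only variables of the first and the last universal block -/
def Sens (m M r : ℕ) (cl : List Cla) : Prop :=
  ∀ d ∈ cl, ∀ h ∈ d.1, ∀ i, h.1.Occ i ∨ h.2.Occ i → i < r ∨ (r + M ≤ i ∧ i < r + M + m)

/-- The type of the tuples of all variables for the prefix `∀ α, q.reverse`. -/
def CT (α : Po) : List Bool → Po
  | [] => α
  | true :: q => (CT α q).prod (Po.one.prod Po.two)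
  | false :: q => (CT α q).prod (Po.two.prod Po.one)

/-- the prefix `∀ x ∈ K, q.reverse` (`q` is the list of the other quantifiers, the last one first) -/
def mkP (α : Po) (K : α → Prop) : (q : List Bool) → Pre (CT α q)
  | [] => .one α K
  | true :: q => .snoc (mkP α K q) Po.one Po.two
  | false :: q => .snoc (mkP α K q) Po.two Po.one

/-- the value of the first variable -/
def rdx {α : Po} : (q : List Bool) → CT α q → α
  | [], γ => γ
  | true :: q, γ => rdx q γ.1
  | false :: q, γ => rdx q γ.1

/-- the values of the other variables, the last one first -/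
def rdb {α : Po} : (q : List Bool) → CT α q → List Prop
  | [], _ => []
  | true :: q, γ => γ.2.2 :: rdb q γ.1
  | false :: q, γ => γ.2.1 :: rdb q γ.1

/-- The first universal variable together with witnesses for the clauses in `J`: `x` contains the values of the `m`
variables of the first block and for every clause number `i` the values of `r` further variables, which satisfy the
hypotheses of the clause if `i ∈ J`. -/
def KJ (m M r : ℕ) (cl : List Cla) (J : ℕ → Prop) (x : ℕ → Prop) : Prop :=
  ∀ i d, cl[i]? = some d → J i → ∀ h ∈ d.1,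
    eqAt (stt r M m (fun j => x (m + i * r + j)) [] x (fun _ => False)) h

/-- the pointwise condition: for every clause number `i ∈ J` and every value of the last block which satisfies the hypotheses, the
conclusion with the number `lam i` holds -/
def Th (m M r : ℕ) (cl : List Cla) (J : ℕ → Prop) (lam : ℕ → ℕ) (τ x : ℕ → Prop) (b : List Prop) :
    Prop :=
  ∀ i d, cl[i]? = some d → J i → ∀ ζ : ℕ → Prop, (∀ h ∈ d.1, eqAt (stt r M m ζ b x τ) h) →
    ∃ a, d.2[lam i]? = some a ∧ eqAt (stt r M m ζ b x τ) a

/-- the criterion for a constant value `τ` of the first existential block -/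
def CritT (m : ℕ) (q : List Bool) (r : ℕ) (cl : List Cla) (τ : ℕ → Prop) : Prop :=
  ∀ J : ℕ → Prop, ∃ lam : ℕ → ℕ,
    V (mkP (Po.bits (m + cl.length * r)) (fun x => KJ m q.length r cl J (bx x)) q) Po.one
      (fun γ _ => Th m q.length r cl J lam τ (bx (rdx q γ)) (rdb q γ))

/-! ## Part 5: the criterion for numbers -/

/-- the bit number `i` of `n` is 1 -/
def tb (n i : ℕ) : Prop := n / 2 ^ i % 2 = 1

instance (n i : ℕ) : Decidable (tb n i) := inferInstanceAs (Decidable (n / 2 ^ i % 2 = 1))

/-- inclusion of bit vectors -/
def subN (u v : ℕ) : Prop := ∀ i < u, tb u i → tb v i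

/-- `Cl` for numbers; the pair `(u, v)` has the number `u * 2 ^ B + v` -/
def ClN (a B w : ℕ) (θ : ℕ → ℕ → Prop) : Prop :=
  tb w 0 ∧ (∀ u < 2 ^ a, ∀ u' < 2 ^ a, ∀ v < 2 ^ B, subN u u' → tb w (u * 2 ^ B + v) →
    tb w (u' * 2 ^ B + v)) ∧
  ∀ u < 2 ^ a, ∀ v < 2 ^ B, tb w (u * 2 ^ B + v) →
    ∃ v' < 2 ^ B, subN v v' ∧ tb w (u * 2 ^ B + v') ∧ θ u v'

/-- `V` for numbers -/
def VN (a : ℕ) (K : ℕ → Prop) : (q : List Bool) → (B : ℕ) → (Θ : ℕ → ℕ → Prop) → Prop
  | [], B, Θ => ∃ w < 2 ^ 2 ^ (a + B), ClN a B w (fun u v => K u → Θ u v)
  | true :: q, B, Θ => VN a K q (2 ^ (1 + B))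
      (fun c w => ClN 1 B w (fun u v => Θ (2 * c + u) v))
  | false :: q, B, Θ => VN a K q (1 + 2 ^ B)
      (fun c w => ClN 0 B w (fun _ v => Θ (2 * c + w / 2 ^ 2 ^ B) v))

/-- one step of the evaluation of a term in postfix notation; `st` is the stack -/
def evStep (s : ℕ → Bool) (st : List Bool) : ℕ → List Bool
  | 0 => false :: st
  | 1 => true :: st
  | 2 => (st.getD 1 false || st.getD 0 false) :: st.drop 2
  | 3 => (st.getD 1 false && st.getD 0 false) :: st.drop 2
  | n => s (n - 8) :: st

/-- the value of a term in postfix notation -/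
def evS (s : ℕ → Bool) (l : List ℕ) : Bool := (l.foldl (evStep s) []).getD 0 false

/-- clauses with terms in postfix notation -/
abbrev SCla : Type := List (List ℕ × List ℕ) × List (List ℕ × List ℕ)

/-- one step of the computation of the conjunctive normal form; the entries of the stack are
(term, normal form, normal form of the negation) -/
def cnfStep (st : List (List ℕ × List SCla × List SCla)) (n : ℕ) :
    List (List ℕ × List SCla × List SCla) :=
  let a := st.getD 0 ([], [], [])
  let b := st.getD 1 ([], [], [])
  if n = 0 ∨ n = 1 then ([n], [], []) :: st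
  else if n = 2 ∨ n = 3 then (b.1 ++ a.1 ++ [n], [], []) :: st.drop 2
  else if n = 4 then ([], [([], [(b.1, a.1)])], [([(b.1, a.1)], [])]) :: st.drop 2
  else if n = 5 then ([], a.2.2, a.2.1) :: st.drop 1
  else if n = 6 then ([], b.2.1 ++ a.2.1, dist b.2.2 a.2.2) :: st.drop 2
  else if n = 7 then ([], dist b.2.1 a.2.1, b.2.2 ++ a.2.2) :: st.drop 2
  else ([n], [], []) :: st

/-- the conjunctive normal form of a formula in postfix notation -/
def cnfS (l : List ℕ) : List SCla := ((l.foldl cnfStep []).getD 0 ([], [], [])).2.1

/-- the state for numbers -/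
def sttN (r M m ζ b x τ i : ℕ) : Bool :=
  if i < r then decide (tb ζ i) else if i < r + M then decide (tb b (i - r))
  else if i < r + M + m then decide (tb x (i - r - M)) else decide (tb τ (i - r - M - m))

/-- `KJ` for numbers -/
def KN (m M r : ℕ) (cl : List SCla) (J x : ℕ) : Prop :=
  ∀ i < cl.length, tb J i → ∀ h ∈ (cl.getD i ([], [])).1,
    evS (sttN r M m (x / 2 ^ (m + i * r)) 0 x 0) h.1 = evS (sttN r M m (x / 2 ^ (m + i * r)) 0 x 0) h.2

/-- the basis for the coding of the choices of conclusions -/
def bas (cl : List SCla) : ℕ := (cl.map fun d => d.2.length).sum + 1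

/-- `Th` for numbers; the choice `lam i` is the digit number `i` of `lam` in the basis `bas cl`, the context `c` consists of
`x` and the bits of the `M` variables in the middle -/
def ThN (m M r : ℕ) (cl : List SCla) (J lam τ c : ℕ) : Prop :=
  ∀ i < cl.length, tb J i → ∀ ζ < 2 ^ r,
    (∀ h ∈ (cl.getD i ([], [])).1,
      evS (sttN r M m ζ c (c / 2 ^ M) τ) h.1 = evS (sttN r M m ζ c (c / 2 ^ M) τ) h.2) →
    ∃ a, (cl.getD i ([], [])).2[lam / (bas cl) ^ i % bas cl]? = some a ∧
      evS (sttN r M m ζ c (c / 2 ^ M) τ) a.1 = evS (sttN r M m ζ c (c / 2 ^ M) τ) a.2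

/-- the criterion for numbers -/
def DecN (k m : ℕ) (q : List Bool) (r : ℕ) (cl : List SCla) : Prop :=
  ∃ τ < 2 ^ k, ∀ J < 2 ^ cl.length, ∃ lam < (bas cl) ^ cl.length,
    VN (m + cl.length * r) (KN m q.length r cl J) q 0
      (fun c _ => ThN m q.length r cl J lam τ c)

end

end PF
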