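import Pool.Agent.helper88.PF.Spec

namespace PF

noncomputable section

theorem FIN (hACL : ACL_stmt) (hCTP : CTP_stmt) (hCR1 : CR1_stmt) (hCR2 : CR2_stmt) (hCBL : CBL_stmt)
    (hCSA : CSA_stmt) (hCCN : CCN_stmt) (hDST : DST_stmt) (hDCR : DCR_stmt) (hDPC : DPC_stmt)
    (hDPD : DPD_stmt) : FIN_stmt := by
  refine ⟨hDST.2.2, fun z => DecN z.1 z.2.1 z.2.2.1.reverse z.2.2.2.1 (cnfS z.2.2.2.2), ?_, ?_⟩
  · have hf : Computable (fun z : ℕ × ℕ × List Bool × ℕ × List ℕ =>
        (((z.1, z.2.1, z.2.2.1.reverse, z.2.2.2.1), cnfS z.2.2.2.2) :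
          (ℕ × ℕ × List Bool × ℕ) × List SCla)) := by
      have h1 : Computable (fun z : ℕ × ℕ × List Bool × ℕ × List ℕ => z.2.2) :=
        Computable.snd.comp Computable.snd
      have h2 : Computable (fun z : ℕ × ℕ × List Bool × ℕ × List ℕ => z.2.2.2) :=
        Computable.snd.comp h1
      have h3 : Computable (fun z : ℕ × ℕ × List Bool × ℕ × List ℕ => z.2.2.1.reverse) :=
        Computable.comp (f := fun l : List Bool => l.reverse) (g := fun z : ℕ × ℕ × List Bool × ℕ × List ℕ => z.2.2.1)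
          Primrec.list_reverse.to_comp (Computable.fst.comp h1)
      have hC : Computable cnfS := Primrec.to_comp hDPC
      have h4 : Computable (fun z : ℕ × ℕ × List Bool × ℕ × List ℕ => cnfS z.2.2.2.2) :=
        Computable.comp (f := cnfS) (g := fun z : ℕ × ℕ × List Bool × ℕ × List ℕ => z.2.2.2.2)
          hC (Computable.snd.comp h2)
      have h5 : Computable (fun z : ℕ × ℕ × List Bool × ℕ × List ℕ => z.2.2.2.1) :=
        Computable.fst.comp h2
      have h6 : Computable (fun z : ℕ × ℕ × List Bool × ℕ × List ℕ => z.2.1) :=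
        Computable.fst.comp Computable.snd
      have h7 : Computable (fun z : ℕ × ℕ × List Bool × ℕ × List ℕ => (z.2.2.1.reverse, z.2.2.2.1)) :=
        Computable.pair h3 h5
      have h8 : Computable (fun z : ℕ × ℕ × List Bool × ℕ × List ℕ =>
        (z.2.1, z.2.2.1.reverse, z.2.2.2.1)) := Computable.pair h6 h7
      have h9 : Computable (fun z : ℕ × ℕ × List Bool × ℕ × List ℕ =>
        (z.1, z.2.1, z.2.2.1.reverse, z.2.2.2.1)) := Computable.pair Computable.fst h8
      exact Computable.pair h9 h4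
    have h10 := R3_comp (fun z : ℕ × ℕ × List Bool × ℕ × List ℕ =>
        (((z.1, z.2.1, z.2.2.1.reverse, z.2.2.2.1), cnfS z.2.2.2.2) :
          (ℕ × ℕ × List Bool × ℕ) × List SCla))
      (fun z : (ℕ × ℕ × List Bool × ℕ) × List SCla =>
        DecN z.1.1 z.1.2.1 z.1.2.2.1 z.1.2.2.2 z.2) hf hDPD
    exact h10
  · intro k m mid r φ hpol
    have hS : Sens m mid.reverse.length r (φ.cnf true) := by
      intro d hd h hh i hi
      rw [List.length_reverse]
      exact hCCN.2 φ _ hpol d hd h hh i hi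
    have e1 : Sat EStar (List.replicate k false ++ List.replicate m true ++ mid ++
        List.replicate r true) φ [] ↔ ∃ w : ℕ → Po.bits k, CE w ∧
          Smid m mid.reverse r (φ.cnf true) (fun p => bx (w p)) := by
      rw [hCSA, ← hCBL k m mid.reverse r (φ.cnf true), List.reverse_reverse]
      have e2 : (fun c : ℕ → List Prop => φ.HAE (fun p i => (c p).getD i False)) =
          (fun c => ClsAE (φ.cnf true) (fun p i => (c p).getD i False)) := by
        funext c
        exact propext (hCCN.1 φ _)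
      rw [e2]
    have e3 : (∃ w : ℕ → Po.bits k, CE w ∧
          Smid m mid.reverse r (φ.cnf true) (fun p => bx (w p))) ↔
        ∃ τ : Po.bits k, CritT m mid.reverse r (φ.cnf true) (bx τ) := by
      constructor
      · rintro ⟨w, hw, h⟩
        obtain ⟨τ, hτ⟩ := hCTP k m mid.reverse r (φ.cnf true) w hS hw h
        exact ⟨τ, hCR2 m mid.reverse r (φ.cnf true) (bx τ) hS hτ⟩
      · rintro ⟨τ, hτ⟩
        exact ⟨fun _ => τ, hACL.1 _ τ, hCR1 m mid.reverse r (φ.cnf true) (bx τ) hS hτ⟩
    have e4 := hDCR k m mid.reverse r (φ.cnf true)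
    rw [← hDST.2.1 φ] at e4
    exact (e1.trans (e3.trans e4)).symm

end

end PF
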