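import Pool.Agent.helper10.PF.AUN
import Pool.Agent.helper13.PF.ALI
import Pool.Agent.helper14.PF.DEN
import Pool.Agent.helper2.PF.DPK
import Pool.Agent.helper21.PF.ACP
import Pool.Agent.helper22.PF.BVM
import Pool.Agent.helper22.PF.CR2
import Pool.Agent.helper32.PF.CBL
import Pool.Agent.helper32.PF.DST
import Pool.Agent.helper34.PF.BWE
import Pool.Agent.helper40.PF.AAP
import Pool.Agent.helper40.PF.BPI
import Pool.Agent.helper45.PF.ATH
import Pool.Agent.helper45.PF.BST
import Pool.Agent.helper46.PF.ARC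
import Pool.Agent.helper47.PF.AFH
import Pool.Agent.helper47.PF.AIC
import Pool.Agent.helper54.PF.CPR
import Pool.Agent.helper60.PF.BMG
import Pool.Agent.helper72.PF.ACL
import Pool.Agent.helper72.PF.CR1
import Pool.Agent.helper72.PF.DEB
import Pool.Agent.helper72.PF.DPD
import Pool.Agent.helper74.PF.BTM
import Pool.Agent.helper74.PF.DNU
import Pool.Agent.helper77.PF.BGA
import Pool.Agent.helper77.PF.DPC
import Pool.Agent.helper83.PF.DPE
import Pool.Agent.helper84.PF.BSO
import Pool.Agent.helper84.PF.CSA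
import Pool.Agent.helper85.PF.CCN
import Pool.Agent.helper88.PF.FIN
import Pool.Agent.helper89.PF.CBR
import Pool.Agent.helper92.PF.DPV
import Pool.Agent.helper93.PF.BPM
import Pool.Agent.helper98.PF.BBA
import Pool.Agent.helper98.PF.CTP
import Pool.Agent.helper99.PF.DCR

namespace PF

theorem all_done : FIN_stmt := by
  have hACL : ACL_stmt := ACL
  have hACP : ACP_stmt := ACP
  have hARC : ARC_stmt := ARC hACP
  have hAAP : AAP_stmt := AAP hACP
  have hALI : ALI_stmt := ALI hACP
  have hAUN : AUN_stmt := AUN hACP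
  have hAIC : AIC_stmt := AIC
  have hATH : ATH_stmt := ATH hACP hAIC
  have hAFH : AFH_stmt := AFH
  have hBSO : BSO_stmt := BSO hACL hACP hARC hAAP hALI
  have hBTM : BTM_stmt := BTM hACL
  have hBST : BST_stmt := BST hACL hBSO hBTM
  have hBGA : BGA_stmt := BGA
  have hBBA : BBA_stmt := BBA hACL hACP hARC hALI hAUN hATH hBGA
  have hBPI : BPI_stmt := BPI
  have hBVM : BVM_stmt := BVM
  have hBPM : BPM_stmt := BPM hBPI hBVM
  have hBMG : BMG_stmt := BMG hACL hBTM
  have hBWE : BWE_stmt := BWE hBTM hBBA hBMG hBPM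
  have hCPR : CPR_stmt := CPR hACL hBTM
  have hCTP : CTP_stmt := CTP hACL hACP hAAP hATH hAFH
  have hCBR : CBR_stmt := CBR hACL hBTM
  have hCR1 : CR1_stmt := CR1 hACL hBTM hBST hCBR
  have hCR2 : CR2_stmt := CR2 hACL hBTM hBWE hCPR hCBR
  have hCBL : CBL_stmt := CBL hACL
  have hCSA : CSA_stmt := CSA hACL
  have hCCN : CCN_stmt := CCN
  have hDST : DST_stmt := DST
  have hDEB : DEB_stmt := DEB
  have hDEN : DEN_stmt := DEN
  have hDNU : DNU_stmt := DNU hDEB hDEN
  have hDCR : DCR_stmt := DCR hDST hDEB hDNU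
  have hDPV : DPV_stmt := DPV
  have hDPE : DPE_stmt := DPE
  have hDPC : DPC_stmt := DPC
  have hDPK : DPK_stmt := DPK hDPE
  have hDPD : DPD_stmt := DPD hDPV hDPK
  exact FIN hACL hCTP hCR1 hCR2 hCBL hCSA hCCN hDST hDCR hDPC hDPD

end PF
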