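import Mathlib

/-!
# Tools for recursively enumerable and decidable predicates

Copied from project ri (MP_2bd605_lc): modules R1 (helper34), R2 (helper61), R3 (helper50), without the imports of that project.
-/

namespace PF

open Function


theorem R1_fwd (α : Type) [Primcodable α] (p : α → Prop) (h : REPred p) :
    ∃ T : α × ℕ → Bool, Computable T ∧ (∀ a n m, n ≤ m → T (a, n) = true → T (a, m) = true) ∧
      ∀ a, p a ↔ ∃ n, T (a, n) = true := by
  obtain ⟨c, hc⟩ := Nat.Partrec.Code.exists_code.mp h
  have hdom : ∀ a, p a ↔ (c.eval (Encodable.encode a)).Dom := by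
    intro a
    rw [hc]
    simp [Part.assert]
  refine ⟨fun x => (Nat.Partrec.Code.evaln x.2 c (Encodable.encode x.1)).isSome, ?_, ?_, ?_⟩
  · have h1 : Primrec fun x : α × ℕ => Nat.Partrec.Code.evaln x.2 c (Encodable.encode x.1) :=
      Nat.Partrec.Code.primrec_evaln.comp
        (((Primrec.snd).pair (Primrec.const c)).pair (Primrec.encode.comp Primrec.fst))
    exact (Primrec.option_isSome.comp h1).to_comp
  · intro a n m hnm hT
    simp only [Option.isSome_iff_exists] at hT ⊢
    obtain ⟨x, hx⟩ := hT
    exact ⟨x, Nat.Partrec.Code.evaln_mono hnm hx⟩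
  · intro a
    rw [hdom, Part.dom_iff_mem]
    simp only [Option.isSome_iff_exists]
    constructor
    · rintro ⟨x, hx⟩
      obtain ⟨k, hk⟩ := Nat.Partrec.Code.evaln_complete.mp hx
      exact ⟨k, x, hk⟩
    · rintro ⟨k, x, hk⟩
      exact ⟨x, Nat.Partrec.Code.evaln_complete.mpr ⟨k, hk⟩⟩

theorem R1_bwd (α : Type) [Primcodable α] (p : α → Prop) (T : α × ℕ → Bool) (hT : Computable T)
    (h : ∀ a, p a ↔ ∃ n, T (a, n) = true) : REPred p := by
  have h1 : Partrec fun a : α => Nat.rfind fun n => Part.some (T (a, n)) := by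
    apply Partrec.rfind
    exact hT.partrec
  refine h1.dom_re.of_eq fun a => ?_
  rw [Nat.rfind_dom, h]
  constructor
  · rintro ⟨n, hn, _⟩
    exact ⟨n, (Part.mem_some_iff.mp hn).symm⟩
  · rintro ⟨n, hn⟩
    exact ⟨n, Part.mem_some_iff.mpr hn.symm, fun _ => trivial⟩

/-- r.e. predicates by monotone computable stage predicates -/
theorem re_iff {α : Type} [Primcodable α] (p : α → Prop) : REPred p ↔
    ∃ T : α × ℕ → Bool, Computable T ∧ (∀ a n m, n ≤ m → T (a, n) = true → T (a, m) = true) ∧
      ∀ a, p a ↔ ∃ n, T (a, n) = true := by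
  constructor
  · exact R1_fwd α p
  · rintro ⟨T, hT, _, h⟩
    exact R1_bwd α p T hT h


/-- bounded search -/
def R2_or {α : Type} (T : α × ℕ → Bool) (x : α × ℕ) : Bool :=
  Nat.rec (motive := fun _ => Bool) false (fun k acc => acc || T (x.1, k)) x.2

theorem R2_or_iff {α : Type} (T : α × ℕ → Bool) (a : α) (n : ℕ) :
    R2_or T (a, n) = true ↔ ∃ k < n, T (a, k) = true := by
  induction n with
  | zero => simp [R2_or]
  | succ n ih =>
    have h : R2_or T (a, n + 1) = (R2_or T (a, n) || T (a, n)) := rfl
    rw [h, Bool.or_eq_true, ih]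
    constructor
    · rintro (⟨k, hk, h1⟩ | h1)
      · exact ⟨k, by omega, h1⟩
      · exact ⟨n, by omega, h1⟩
    · rintro ⟨k, hk, h1⟩
      rcases Nat.lt_or_ge k n with h2 | h2
      · exact Or.inl ⟨k, h2, h1⟩
      · have : k = n := by omega
        subst this
        exact Or.inr h1

theorem R2_or_comp {α : Type} [Primcodable α] {T : α × ℕ → Bool} (hT : Computable T) :
    Computable (R2_or T) := by
  have hh : Computable₂ (fun (x : α × ℕ) (y : ℕ × Bool) => y.2 || T (x.1, y.1)) := by
    have h1 : Computable (fun z : (α × ℕ) × (ℕ × Bool) => z.2.2) :=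
      Computable.snd.comp Computable.snd
    have h2 : Computable (fun z : (α × ℕ) × (ℕ × Bool) => T (z.1.1, z.2.1)) :=
      hT.comp ((Computable.fst.comp Computable.fst).pair (Computable.fst.comp Computable.snd))
    exact Primrec.or.to_comp.comp h1 h2
  exact Computable.nat_rec Computable.snd (Computable.const false) hh

/-- bounded universal quantifier -/
def R2_and {α : Type} (T : (α × ℕ) × ℕ → Bool) (g : α → ℕ) (x : α × ℕ) : Bool :=
  Nat.rec (motive := fun _ => Bool) true (fun k acc => acc && T ((x.1, k), x.2)) (g x.1)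

theorem R2_and_iff {α : Type} (T : (α × ℕ) × ℕ → Bool) (g : α → ℕ) (a : α) (n : ℕ) :
    R2_and T g (a, n) = true ↔ ∀ k < g a, T ((a, k), n) = true := by
  unfold R2_and
  simp only
  induction g a with
  | zero => simp
  | succ m ih =>
    simp only [Bool.and_eq_true]
    rw [ih]
    constructor
    · rintro ⟨h1, h2⟩ k hk
      rcases Nat.lt_or_ge k m with h3 | h3
      · exact h1 k h3
      · have : k = m := by omega
        subst this
        exact h2
    · intro h
      exact ⟨fun k hk => h k (by omega), h m (by omega)⟩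

theorem R2_and_comp {α : Type} [Primcodable α] {T : (α × ℕ) × ℕ → Bool} (hT : Computable T)
    {g : α → ℕ} (hg : Computable g) : Computable (R2_and T g) := by
  have hh : Computable₂ (fun (x : α × ℕ) (y : ℕ × Bool) => y.2 && T ((x.1, y.1), x.2)) := by
    have h1 : Computable (fun z : (α × ℕ) × (ℕ × Bool) => z.2.2) :=
      Computable.snd.comp Computable.snd
    have h2 : Computable (fun z : (α × ℕ) × (ℕ × Bool) => T ((z.1.1, z.2.1), z.1.2)) :=
      hT.comp (((Computable.fst.comp Computable.fst).pair (Computable.fst.comp Computable.snd)).pair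
        (Computable.snd.comp Computable.fst))
    exact Primrec.and.to_comp.comp h1 h2
  exact Computable.nat_rec (hg.comp Computable.fst) (Computable.const true) hh

theorem R2_mk {α : Type} [Primcodable α] {p : α → Prop} {T : α × ℕ → Bool}
    (hT : Computable T) (h : ∀ a, p a ↔ ∃ n, T (a, n) = true) : REPred p := by
  rw [re_iff p]
  refine ⟨R2_or T, R2_or_comp hT, ?_, ?_⟩
  · intro a n m hnm h1
    rw [R2_or_iff] at h1 ⊢
    obtain ⟨k, hk, h2⟩ := h1
    exact ⟨k, by omega, h2⟩
  · intro a
    rw [h a]
    constructor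
    · rintro ⟨n, hn⟩
      exact ⟨n + 1, (R2_or_iff T a (n + 1)).2 ⟨n, by omega, hn⟩⟩
    · rintro ⟨n, hn⟩
      obtain ⟨k, -, hk⟩ := (R2_or_iff T a n).1 hn
      exact ⟨k, hk⟩

theorem R2_andor (α : Type) [Primcodable α] (p q : α → Prop) (hp : REPred p)
    (hq : REPred q) : REPred (fun a => p a ∧ q a) ∧ REPred (fun a => p a ∨ q a) := by
  obtain ⟨T, hT, hTm, hTp⟩ := (re_iff p).1 hp
  obtain ⟨S, hS, hSm, hSp⟩ := (re_iff q).1 hq
  constructor
  · refine R2_mk (T := fun x => T x && S x) (Primrec.and.to_comp.comp hT hS) fun a => ?_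
    rw [hTp a, hSp a]
    constructor
    · rintro ⟨⟨n, hn⟩, ⟨m, hm⟩⟩
      refine ⟨max n m, ?_⟩
      rw [Bool.and_eq_true]
      exact ⟨hTm a n _ (le_max_left _ _) hn, hSm a m _ (le_max_right _ _) hm⟩
    · rintro ⟨n, hn⟩
      rw [Bool.and_eq_true] at hn
      exact ⟨⟨n, hn.1⟩, ⟨n, hn.2⟩⟩
  · refine R2_mk (T := fun x => T x || S x) (Primrec.or.to_comp.comp hT hS) fun a => ?_
    rw [hTp a, hSp a]
    constructor
    · rintro (⟨n, hn⟩ | ⟨n, hn⟩)
      · exact ⟨n, by rw [Bool.or_eq_true]; exact Or.inl hn⟩
      · exact ⟨n, by rw [Bool.or_eq_true]; exact Or.inr hn⟩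
    · rintro ⟨n, hn⟩
      rw [Bool.or_eq_true] at hn
      exact hn.elim (fun h => Or.inl ⟨n, h⟩) (fun h => Or.inr ⟨n, h⟩)

theorem R2_compf (α β : Type) [Primcodable α] [Primcodable β] (f : α → β)
    (p : β → Prop) (hf : Computable f) (hp : REPred p) : REPred (fun a => p (f a)) := by
  obtain ⟨T, hT, -, hTp⟩ := (re_iff p).1 hp
  exact R2_mk (T := fun x => T (f x.1, x.2))
    (hT.comp ((hf.comp Computable.fst).pair Computable.snd)) fun a => hTp (f a)

theorem R2_ex (α β : Type) [Primcodable α] [Primcodable β] (p : α → β → Prop)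
    (hp : REPred (fun x : α × β => p x.1 x.2)) : REPred (fun a => ∃ b, p a b) := by
  obtain ⟨T, hT, -, hTp⟩ := (re_iff _).1 hp
  have hc : Computable (fun x : α × ℕ => (Option.casesOn
      (Encodable.decode (α := β) x.2.unpair.1) false
      (fun b => T ((x.1, b), x.2.unpair.2)) : Bool)) := by
    refine Computable.option_casesOn ?_ (Computable.const false) ?_
    · exact Primrec.decode.to_comp.comp
        (Computable.fst.comp (Primrec.unpair.to_comp.comp Computable.snd))
    · exact hT.comp (((Computable.fst.comp Computable.fst).pair Computable.snd).pair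
        (Computable.snd.comp (Primrec.unpair.to_comp.comp (Computable.snd.comp Computable.fst))))
  refine R2_mk hc fun a => ?_
  constructor
  · rintro ⟨b, hb⟩
    obtain ⟨n, hn⟩ := (hTp (a, b)).1 hb
    refine ⟨Nat.pair (Encodable.encode b) n, ?_⟩
    simp only [Nat.unpair_pair, Encodable.encodek]
    exact hn
  · rintro ⟨n, hn⟩
    rcases h : Encodable.decode (α := β) n.unpair.1 with _ | b
    · simp only [h] at hn
      exact absurd hn (by decide)
    · simp only [h] at hn
      exact ⟨b, (hTp (a, b)).2 ⟨_, hn⟩⟩

theorem R2_ball (α : Type) [Primcodable α] (p : α → ℕ → Prop) (g : α → ℕ)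
    (hp : REPred (fun x : α × ℕ => p x.1 x.2)) (hg : Computable g) :
    REPred (fun a => ∀ k < g a, p a k) := by
  obtain ⟨T, hT, hTm, hTp⟩ := (re_iff _).1 hp
  refine R2_mk (R2_and_comp hT hg) fun a => ?_
  constructor
  · intro h
    have h1 : ∀ k < g a, ∃ n, T ((a, k), n) = true := fun k hk => (hTp (a, k)).1 (h k hk)
    choose! N hN using h1
    refine ⟨(Finset.range (g a)).sup N, (R2_and_iff T g a _).2 fun k hk => ?_⟩
    exact hTm (a, k) _ _ (Finset.le_sup (f := N) (Finset.mem_range.2 hk)) (hN k hk)
  · rintro ⟨n, hn⟩ k hk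
    exact (hTp (a, k)).2 ⟨n, (R2_and_iff T g a n).1 hn k hk⟩

theorem R2_blist (α β : Type) [Primcodable α] [Primcodable β] (p : α → β → Prop)
    (g : α → List β) (hp : REPred (fun x : α × β => p x.1 x.2)) (hg : Computable g) :
    REPred (fun a => ∀ b ∈ g a, p a b) := by
  obtain ⟨T, hT, -, hTp⟩ := (re_iff _).1 hp
  have hc : Computable (fun x : (α × ℕ) × ℕ => (Option.casesOn (g x.1.1)[x.1.2]? false
      (fun b => T ((x.1.1, b), x.2)) : Bool)) := by
    refine Computable.option_casesOn ?_ (Computable.const false) ?_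
    · exact Computable.list_getElem?.comp (hg.comp (Computable.fst.comp Computable.fst))
        (Computable.snd.comp Computable.fst)
    · exact hT.comp (((Computable.fst.comp (Computable.fst.comp Computable.fst)).pair
        Computable.snd).pair (Computable.snd.comp Computable.fst))
  have hq : REPred (fun x : α × ℕ => ∃ b, (g x.1)[x.2]? = some b ∧ p x.1 b) := by
    refine R2_mk hc fun x => ?_
    constructor
    · rintro ⟨b, hb, hpb⟩
      obtain ⟨n, hn⟩ := (hTp (x.1, b)).1 hpb
      refine ⟨n, ?_⟩
      simp only [hb]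
      exact hn
    · rintro ⟨n, hn⟩
      rcases h : (g x.1)[x.2]? with _ | b
      · simp only [h] at hn
        exact absurd hn (by decide)
      · simp only [h] at hn
        exact ⟨b, rfl, (hTp (x.1, b)).2 ⟨_, hn⟩⟩
  have h1 := R2_ball α (fun a k => ∃ b, (g a)[k]? = some b ∧ p a b) (fun a => (g a).length) hq
    (Computable.list_length.comp hg)
  have h2 : (fun a => ∀ b ∈ g a, p a b) =
      fun a => ∀ k < (g a).length, ∃ b, (g a)[k]? = some b ∧ p a b := by
    funext a
    apply propext
    constructor
    · intro h k hk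
      exact ⟨(g a)[k], List.getElem?_eq_getElem hk, h _ (List.getElem_mem hk)⟩
    · intro h b hb
      obtain ⟨k, hk, rfl⟩ := List.getElem_of_mem hb
      obtain ⟨b', h3, h4⟩ := h k hk
      rw [List.getElem?_eq_getElem hk] at h3
      rw [Option.some_inj.1 h3]
      exact h4
  rw [h2]
  exact h1


theorem R3_iff {α : Type} [Primcodable α] (p : α → Prop) :
    ComputablePred p ↔ ∃ f : α → Bool, Computable f ∧ ∀ a, p a ↔ f a = true := by
  rw [ComputablePred.computable_iff]
  constructor
  · rintro ⟨f, hf, rfl⟩
    exact ⟨f, hf, fun a => Iff.rfl⟩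
  · rintro ⟨f, hf, h⟩
    exact ⟨f, hf, funext fun a => propext (h a)⟩

theorem R3_not {α : Type} [Primcodable α] {p : α → Prop} (hp : ComputablePred p) :
    ComputablePred (fun a => ¬ p a) := by
  obtain ⟨f, hf, h⟩ := (R3_iff p).mp hp
  refine (R3_iff _).mpr ⟨fun a => cond (f a) false true,
    Computable.cond hf (Computable.const false) (Computable.const true), ?_⟩
  intro a
  rw [h a]
  cases hfa : f a <;> simp [hfa]

theorem R3_and {α : Type} [Primcodable α] {p q : α → Prop} (hp : ComputablePred p)
    (hq : ComputablePred q) : ComputablePred (fun a => p a ∧ q a) := by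
  obtain ⟨f, hf, h⟩ := (R3_iff p).mp hp
  obtain ⟨g, hg, h'⟩ := (R3_iff q).mp hq
  refine (R3_iff _).mpr ⟨fun a => cond (f a) (g a) false,
    Computable.cond hf hg (Computable.const false), ?_⟩
  intro a
  rw [h a, h' a]
  cases hfa : f a <;> simp [hfa]

theorem R3_comp {α β : Type} [Primcodable α] [Primcodable β] (f : α → β) (p : β → Prop)
    (hf : Computable f) (hp : ComputablePred p) : ComputablePred (fun a => p (f a)) := by
  obtain ⟨g, hg, h⟩ := (R3_iff p).mp hp
  exact (R3_iff _).mpr ⟨fun a => g (f a), hg.comp hf, fun a => h (f a)⟩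

theorem R3_all {α : Type} [Primcodable α] (p : α → ℕ → Prop) (g : α → ℕ)
    (hp : ComputablePred (fun x : α × ℕ => p x.1 x.2)) (hg : Computable g) :
    ComputablePred (fun a => ∀ k < g a, p a k) := by
  obtain ⟨f, hf, h⟩ := (R3_iff _).mp hp
  refine (R3_iff _).mpr ⟨fun a => Nat.rec (motive := fun _ => Bool) true
    (fun k b => cond b (f (a, k)) false) (g a), ?_, ?_⟩
  · refine Computable.nat_rec (h := fun a (q : ℕ × Bool) => cond q.2 (f (a, q.1)) false)
      hg (Computable.const true) ?_
    show Computable (fun z : α × (ℕ × Bool) => cond z.2.2 (f (z.1, z.2.1)) false)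
    refine Computable.cond ?_ ?_ (Computable.const false)
    · exact Computable.snd.comp Computable.snd
    · exact hf.comp (Computable.pair Computable.fst (Computable.fst.comp Computable.snd))
  · intro a
    have key : ∀ n : ℕ, (∀ k < n, p a k) ↔ (Nat.rec (motive := fun _ => Bool) true
        (fun k b => cond b (f (a, k)) false) n) = true := by
      intro n
      induction n with
      | zero => simp
      | succ n ih =>
        have h1 : (Nat.rec (motive := fun _ => Bool) true
            (fun k b => cond b (f (a, k)) false) (n + 1)) =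
            cond (Nat.rec (motive := fun _ => Bool) true
              (fun k b => cond b (f (a, k)) false) n) (f (a, n)) false := rfl
        rw [h1]
        constructor
        · intro h2
          have h3 := ih.mp (fun k hk => h2 k (by omega))
          rw [h3]
          exact (h (a, n)).mp (h2 n (by omega))
        · intro h2 k hk
          cases hc : (Nat.rec (motive := fun _ => Bool) true
              (fun k b => cond b (f (a, k)) false) n) with
          | false => rw [hc] at h2; simp at h2
          | true =>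
            rw [hc] at h2
            rcases Nat.lt_succ_iff_lt_or_eq.mp hk with hk | hk
            · exact ih.mpr hc k hk
            · rw [hk]; exact (h (a, n)).mpr h2
    exact key (g a)


/-! ## Short names -/

theorem re_and {α : Type} [Primcodable α] {p q : α → Prop} (hp : REPred p) (hq : REPred q) :
    REPred (fun a => p a ∧ q a) := (R2_andor α p q hp hq).1

theorem re_or {α : Type} [Primcodable α] {p q : α → Prop} (hp : REPred p) (hq : REPred q) :
    REPred (fun a => p a ∨ q a) := (R2_andor α p q hp hq).2

theorem re_comp {α β : Type} [Primcodable α] [Primcodable β] {f : α → β} {p : β → Prop}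
    (hf : Computable f) (hp : REPred p) : REPred (fun a => p (f a)) := R2_compf α β f p hf hp

theorem re_ex {α β : Type} [Primcodable α] [Primcodable β] {p : α → β → Prop}
    (hp : REPred (fun x : α × β => p x.1 x.2)) : REPred (fun a => ∃ b, p a b) := R2_ex α β p hp

theorem cp_or {α : Type} [Primcodable α] {p q : α → Prop} (hp : ComputablePred p)
    (hq : ComputablePred q) : ComputablePred (fun a => p a ∨ q a) :=
  (R3_not (R3_and (R3_not hp) (R3_not hq))).of_eq (fun a => by tauto)

theorem cp_and {α : Type} [Primcodable α] {p q : α → Prop} (hp : ComputablePred p)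
    (hq : ComputablePred q) : ComputablePred (fun a => p a ∧ q a) := R3_and hp hq

theorem cp_not {α : Type} [Primcodable α] {p : α → Prop} (hp : ComputablePred p) :
    ComputablePred (fun a => ¬ p a) := R3_not hp

theorem cp_comp {α β : Type} [Primcodable α] [Primcodable β] {f : α → β} {p : β → Prop}
    (hf : Computable f) (hp : ComputablePred p) : ComputablePred (fun a => p (f a)) :=
  R3_comp f p hf hp

theorem cp_ball {α : Type} [Primcodable α] {p : α → ℕ → Prop} {g : α → ℕ}
    (hp : ComputablePred (fun x : α × ℕ => p x.1 x.2)) (hg : Computable g) :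
    ComputablePred (fun a => ∀ k < g a, p a k) := R3_all p g hp hg

theorem cp_bex {α : Type} [Primcodable α] {p : α → ℕ → Prop} {g : α → ℕ}
    (hp : ComputablePred (fun x : α × ℕ => p x.1 x.2)) (hg : Computable g) :
    ComputablePred (fun a => ∃ k < g a, p a k) := by
  have h := R3_not (R3_all (fun a k => ¬ p a k) g (R3_not hp) hg)
  exact h.of_eq (fun a => by push Not; rfl)

theorem cp_eq {α β : Type} [Primcodable α] [Primcodable β] [DecidableEq β] {f g : α → β}
    (hf : Computable f) (hg : Computable g) : ComputablePred (fun a => f a = g a) := by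
  have h : ComputablePred (fun x : β × β => x.1 = x.2) := (Primrec.eq (α := β)).computablePred
  exact R3_comp (fun a => (f a, g a)) _ (hf.pair hg) h

theorem cp_lt {α : Type} [Primcodable α] {f g : α → ℕ} (hf : Computable f) (hg : Computable g) :
    ComputablePred (fun a => f a < g a) := by
  have h : ComputablePred (fun x : ℕ × ℕ => x.1 < x.2) := Primrec.nat_lt.computablePred
  exact R3_comp (fun a => (f a, g a)) _ (hf.pair hg) h

theorem cp_le {α : Type} [Primcodable α] {f g : α → ℕ} (hf : Computable f) (hg : Computable g) :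
    ComputablePred (fun a => f a ≤ g a) := by
  have h : ComputablePred (fun x : ℕ × ℕ => x.1 ≤ x.2) := Primrec.nat_le.computablePred
  exact R3_comp (fun a => (f a, g a)) _ (hf.pair hg) h

theorem cp_const {α : Type} [Primcodable α] (P : Prop) : ComputablePred (fun _ : α => P) := by
  classical
  by_cases h : P
  · exact (R3_iff _).2 ⟨fun _ => true, Computable.const true, fun _ => by simp [h]⟩
  · exact (R3_iff _).2 ⟨fun _ => false, Computable.const false, fun _ => by simp [h]⟩

theorem re_const {α : Type} [Primcodable α] (P : Prop) : REPred (fun _ : α => P) :=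
  (cp_const P).to_re

end PF
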