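import Pool.Agent.helper88.PF.Defs

/-!
# Project pf (MP_0b485e_lc): decidability of positive fragments of the theory of `E*`, with all quantifier prefixes

THEOREM. There is an algorithm which decides the truth in `E*` of all prenex sentences
`∃w_1..w_k ∀x_1..x_m Q ∀z_1..z_r φ`, `Q` an arbitrary prefix, in which the atoms with a negative occurrence contain only
variables from `x` and `z`. In particular: the positive theory of `E*` (all prefixes), and all `∃∀∃∀`-sentences
(and `∀∃∀`-sentences) in which the existentially quantified variables occur only in positive atoms.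

RULES. File `Pool/Agent/<seat>/PF/XX.lean`, `import Pool.Agent.helper88.PF.Spec`, `namespace PF`,
`theorem XX (hYY : YY_stmt) ... : XX_stmt` with the hypotheses of the lock note, in this order. Auxiliary lemmas prefixed `XX_`.
No double quotes, no `convert`, no `congr!`, no native_decide. Definitions: `Pool/Agent/helper88/PF/Defs.lean`. Closure
properties of `REPred` and `ComputablePred`: `Pool/Agent/helper88/PF/Re.lean` (`re_iff`, `re_and`, `re_or`, `re_comp`, `re_ex`,
`cp_and`, `cp_or`, `cp_not`, `cp_comp`, `cp_ball`, `cp_bex`, `cp_eq`, `cp_lt`, `cp_const`).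

IDEA. (1) A sentence `∀x∃y Θ` with a pointwise condition (`Θ (x p) (y p)` for almost all `p`) is true iff the second player wins
a finite game (BBA; the first player plays on the `c`-th computable class of positions against the `c`-th c.e. set). (2) `V`: the last
pair `∀u ∃v` is replaced by a new existential component `D`, a set of pairs `(u, v)` which is closed: `(⊥,⊥) ∈ D`, `D` is
closed under increasing `u`, and every `(u, v) ∈ D` has `v' ≥ v` with `(u, v') ∈ D` and `Θ u v'`. (3) Truth implies `V`: from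
`∃t ∀u ∃v` one gets the same for `M` copies, `∃t ∀(u_1..u_M) ∃(v_1..v_M)`; then one may move the universal variables
`u_g` in front of `t` (this weakens the sentence), so the number of blocks decreases; the closed sets for the merged sentence
give closed sets for the original one by counting copies (BPI).
-/

set_option linter.unusedVariables false

namespace PF

noncomputable section

/-! ## A. Computably enumerable functions -/

/-- ACL (medium): closure properties of `CE`.
(2): `u ≤ h (a p) ↔ ∃ v, u ≤ h v ∧ v ≤ a p` (`v = a p`; monotone): a finite union. (7): `v ≤ a p ↔ ∀ i, v i ≤ a p i`: a finite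
intersection; conversely (2). -/
def ACL_stmt : Prop :=
  (∀ (α : Type) [Preorder α] (v : α), CE (fun _ : ℕ => v)) ∧
  (∀ (α β : Type) [Preorder α] [Finite α] [Preorder β] (h : α → β) (a : ℕ → α), Monotone h → CE a →
    CE (fun p => h (a p))) ∧
  (∀ (α β : Type) [Preorder α] [Preorder β] (a : ℕ → α) (b : ℕ → β), CE a → CE b →
    CE (fun p => (a p, b p))) ∧
  (∀ (α : Type) [Preorder α] (a : ℕ → α) (f : ℕ → ℕ), Computable f → CE a → CE (fun p => a (f p))) ∧
  (∀ (α : Type) [Preorder α] (R : ℕ → Prop) (a b c : ℕ → α), ComputablePred R → CE a → CE b →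
    (∀ p, R p → c p = a p) → (∀ p, ¬ R p → c p = b p) → CE c) ∧
  (∀ a : ℕ → Prop, CE a ↔ REPred a) ∧
  ∀ (α : Type) [Preorder α] [Finite α] (k : ℕ) (a : ℕ → Fin k → α), CE a ↔ ∀ i, CE (fun p => a p i)

/-- ACP (short-medium): closure properties of `Cmp`. Finite unions of decidable sets. -/
def ACP_stmt : Prop :=
  (∀ (X : Type) [Primcodable X] (α β : Type) [Finite α] (g : α → β) (f : X → α), Cmp f →
    Cmp (fun x => g (f x))) ∧
  (∀ (X : Type) [Primcodable X] (α β : Type) (f : X → α) (g : X → β), Cmp f → Cmp g →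
    Cmp (fun x => (f x, g x))) ∧
  (∀ (X Y : Type) [Primcodable X] [Primcodable Y] (α : Type) (f : Y → α) (h : X → Y), Computable h → Cmp f →
    Cmp (fun x => f (h x))) ∧
  (∀ (X : Type) [Primcodable X] (α : Type) [Finite α] (P : α → Prop) (f : X → α), Cmp f →
    ComputablePred (fun x => P (f x))) ∧
  ∀ (X : Type) [Primcodable X] (α : Type) (v : α), Cmp (fun _ : X => v)

/-- ARC (medium): recursion on a finite set. Proof: `α ≃ Fin n`, `γ ≃ Fin m` (`Finite.exists_equiv_fin`), `Cmp` for `Fin n` is
`Computable`, functions on finite types are computable, `Computable.nat_rec`. -/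
def ARC_stmt : Prop := ∀ (X : Type) [Primcodable X] (α γ : Type) [Finite α] [Finite γ] (a₀ : α)
  (G : α → γ → α) (I : X × ℕ → γ), Cmp I →
    ∃ S : X × ℕ → α, Cmp S ∧ (∀ x, S (x, 0) = a₀) ∧ ∀ x s, S (x, s + 1) = G (S (x, s)) (I (x, s))

/-- AAP (medium): approximations. Proof: for every `v` the c.e. set `{p | v ≤ a p}` is `∃ s, T_v (p, s)` with computable
`T_v`, monotone in `s` (`re_iff`). `A (p, s) = ` supremum (in the lattice) of the `v` with `T_v (p, s)`. It is `≤ a p`, increasing in
`s`, and equal to `a p` if `T_(a p) (p, s)`. `Cmp A`: `A (p, s)` is a function of the finite family of truth values. -/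
def AAP_stmt : Prop := ∀ (α : Po) (a : ℕ → α), CE a → ∃ A : ℕ × ℕ → α, Cmp A ∧
  (∀ p s, A (p, s) ≤ A (p, s + 1)) ∧ (∀ p s, A (p, s) ≤ a p) ∧
    ∀ p, ∃ s₀, ∀ s, s₀ ≤ s → A (p, s) = a p

/-- ALI (short-medium): limits of increasing computable approximations: `v ≤ a p ↔ ∃ s, v ≤ A (p, s)` (`re_ex`). -/
def ALI_stmt : Prop := ∀ (α : Po) (a : ℕ → α) (A : ℕ × ℕ → α), Cmp A →
  (∀ p s, A (p, s) ≤ A (p, s + 1)) → (∀ p, ∃ s₀, ∀ s, s₀ ≤ s → A (p, s) = a p) → CE a

/-- AUN (medium): a universal family of approximations. Proof: `β` has the elements `v_0, ..., v_(n-1)`. The number `c` codes a list of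
numbers, these code programs `c_0, ..., c_(n-1)` (`Nat.Partrec.Code`, `Encodable.decode`, `evaln`, `Nat.Partrec.Code.primrec_evaln`);
`U ((c, p), s) = ` supremum of the `v_i` with `evaln s c_i p ≠ none`. For a c.e. `y` choose `c_i` with the domain `{p | v_i ≤ y p}`. -/
def AUN_stmt : Prop := ∀ β : Po, ∃ U : (ℕ × ℕ) × ℕ → β, Cmp U ∧
  (∀ c p s, U ((c, p), s) ≤ U ((c, p), s + 1)) ∧
  ∀ y : ℕ → β, CE y → ∃ c, ∀ p, ∃ s₀, ∀ s, s₀ ≤ s → U ((c, p), s) = y p

/-- AIC (medium): an infinite c.e. set contains an infinite computable set. Proof: `P k ↔ ∃ s, T (k, s)`. Let `g 0` and `g (n+1)` be the `k` of the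
first pair `(k, s)` (in the order of the codes) with `T (k, s)` and `k > g n` (`Computable.find` and `Computable.nat_rec`); `g` is
computable and strictly increasing, so its range is computable: `k = g n` for some `n ≤ k`. -/
def AIC_stmt : Prop := ∀ P : ℕ → Prop, REPred P → {k | P k}.Infinite →
  ∃ R : ℕ → Prop, ComputablePred R ∧ {k | R k}.Infinite ∧ ∀ k, R k → P k

/-- ATH (medium): thin sets. Proof: some value `σ` is reached (`∃ s, S (k, s) = σ`) for infinitely many `k` (for instance by `s = 0`,
pigeonhole); take a maximal such `σ₀`. The set of the `k` which reach `σ₀` is c.e. and infinite; if such a `k` leaves `σ₀`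
it reaches a larger `σ`, so only finitely many do. Remove them, and apply AIC. -/
def ATH_stmt : Prop := ∀ (σ : Type) [PartialOrder σ] [Finite σ] (S : ℕ × ℕ → σ), Cmp S →
  (∀ k s, S (k, s) ≤ S (k, s + 1)) → ∃ (σ₀ : σ) (R : ℕ → Prop), ComputablePred R ∧ {k | R k}.Infinite ∧
    ∀ k, R k → ∃ s₀, ∀ s, s₀ ≤ s → S (k, s) = σ₀

/-- AFH (medium): an infinite computable set `R` is the range of a computable `f` with a computable left inverse `h` with finite fibres.
Proof: `f n` = the `n`-th element of `R` (`Nat.nth`, or `Computable.find`), `h p` = the number of the elements `< p` of `R` if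
`R p`, the number of the non-elements `< p` otherwise. (Each of the two parts of `h` is injective.) -/
def AFH_stmt : Prop := ∀ R : ℕ → Prop, ComputablePred R → {k | R k}.Infinite →
  ∃ f h : ℕ → ℕ, Computable f ∧ Computable h ∧ (∀ n, R (f n)) ∧ (∀ n, h (f n) = n) ∧
    ∀ n, {p | h p = n}.Finite

/-! ## B. The finite criterion -/

/-- BSO (medium): one pair of quantifiers. Proof: approximations (AAP) `γ_s, t_s, D_s, x_s` (of the quadruple, or of each). Define `y_0 = ⊥` and
`y_(s+1) = y_s` if `(x_s, y_s) ∈ D_s ∧ Θ γ_s t_s x_s y_s`; otherwise some `v ≥ y_s` with `(x_s, v) ∈ D_s ∧ Θ γ_s t_s x_s v` if there is one, otherwise `y_s`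
(ARC, ACP; `Cmp`). For a good `p`: every `y_s` is `⊥` or comes from an earlier stage with `(x_s', y_s) ∈ D_s' ⊆ D p`, so by closure
`(x p, y_s) ∈ D p` (also for `⊥`). When the approximations have their final values, the third property of `Cl` gives `v`, so after
this stage `Θ` holds and `y` does not change any more. `y` is c.e. by ALI (an increasing sequence in a finite lattice is eventually constant). -/
def BSO_stmt : Prop := ∀ (Γ β₀ α β : Po) (Θ : Γ → β₀ → α → β → Prop) (γ : ℕ → Γ) (t : ℕ → β₀)
  (D : ℕ → (α.prod β).set) (x : ℕ → α), CE γ → CE t → CE D → CE x →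
    AE (fun p => Cl (D p) (fun u v => Θ (γ p) (t p) u v)) →
    ∃ y : ℕ → β, CE y ∧ AE (fun p => Θ (γ p) (t p) (x p) (y p))

/-- BTM (short): `Tr` is monotone. Induction on `π` (pairs of c.e. functions are c.e., ACL). -/
def BTM_stmt : Prop := ∀ (Γ : Po) (π : Pre Γ) (M M' : (ℕ → Γ) → Prop), (∀ γ, CE γ → M γ → M' γ) →
  Tr π M → Tr π M'

/-- BST (short-medium): the criterion implies truth. Proof: induction on `π`, generalizing `β`, `Θ`. `one`: the constant function `D` and BSO (with `Γ = β₀ = Po.one`
and the condition `K u → Θ u v`; `K (x p)` for almost all `p`). `snoc`: induction hypothesis, BTM, BSO (components of `t` by ACL (2)). -/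
def BST_stmt : Prop := ∀ (Γ : Po) (π : Pre Γ) (β : Po) (Θ : Γ → β → Prop), V π β Θ →
  Tr π (fun γ => ∃ y : ℕ → β, CE y ∧ AE (fun p => Θ (γ p) (y p)))

/-- BGA (short-medium): the finite game. `θ` not won: there is no closed set. Proof: let `W` be the union of all `D` with the second and the third property of
`Cl`; it has these two properties, so `(⊥,⊥) ∉ W`. (L1): `(u, v') ∈ W`, `v ≤ v'` implies `(u, v) ∈ W` (add all `(u', v)`, `u' ≥ u`). (L2): if
`(u, v) ∉ W` and `θ u v` then there is `u' > u` with: `θ u' v' → (u', v') ∉ W` for all `v' ≥ v` (otherwise add all `(u', v)`, `u' ≥ u`).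
`I u v := ∀ v' ≥ v, θ u v' → (u, v') ∉ W`. -/
def BGA_stmt : Prop := ∀ (α β : Po) (θ : α → β → Prop), (¬ ∃ D : Set (α × β), Cl D θ) →
  ∃ I : α → β → Prop, I ⊥ ⊥ ∧ (∀ u v v', v ≤ v' → I u v → I u v') ∧
    ∀ u v, I u v → θ u v → ∃ u', u < u' ∧ I u' v

/-- BBA (medium): THE BASE: the recursion theoretic part. Proof: let `θ u v = (K u → Θ u v)`, suppose that there is no closed `D`, `I` from BGA. At the position
`p = pair c k` let `Y_s = U ((c, p), s)` (AUN), `X_0 = ⊥`, `X_(s+1) = u'` from BGA if `I X_s Y_s ∧ θ X_s Y_s`, otherwise `X_s`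
(ARC). `I X_s Y_s` for all `s` (induction). `X` is increasing, so eventually constant with value `x p`; `x` is c.e. (ALI). In the limit `¬ θ` (otherwise `X`
would move), that is `K (x p) ∧ ¬ Θ (x p) (lim Y)`. By hypothesis there is `y` for `x`; let `c` be its number in AUN. By ATH for
`(X, Y)` at the positions `pair c k`, `k ∈ ℕ`, there is an infinite computable set of positions where `(x p, y p)` is a constant `σ`, `¬ Θ σ.1 σ.2`:
contradiction to `Wk`. -/
def BBA_stmt : Prop := ∀ (α β : Po) (K : α → Prop) (Θ : α → β → Prop),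
  (∀ x : ℕ → α, CE x → AE (fun p => K (x p)) →
    ∃ y : ℕ → β, CE y ∧ Wk (fun p => (x p, y p)) (fun s => Θ s.1 s.2)) →
  ∃ D : Set (α × β), Cl D (fun u v => K u → Θ u v)

/-- BPI (medium): COUNTING COPIES. Proof. Let `rk (t, E) = #{t' ≤ t} + #E ≤ N = #β₀ + #(α × β)` (strictly monotone), `B = 2 #β`, `m (t, E) = B ^ (N - rk (t, E))`,
`M = B ^ N`. `Π D` = the set of all `(s, (t, E))` such that for some `((s, u), (t', v)) ∈ D` with `t ≤ t'`: for all `(a, b) ∈ E ∪ {(⊥,⊥)}` at least
`m (t, E)` of the `g < M` have `u_g = a`, `b ≤ v_g`. Monotone in `D`. Let `D` be closed. `(⊥, (⊥, ∅)) ∈ Π D` (from `(⊥,⊥) ∈ D`; `m ≤ M`); closure under increasing `s` is clear.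
Third property, `(s, (t, E)) ∈ Π D`: if `¬ κ s` take `(t, E)` itself. Otherwise let `(t₁, E₁) ≥ (t, E)` be an element with `(s, (t₁, E₁)) ∈ Π D` of maximal `rk`, with the
witness `((s, u), (t', v))`; by closure of `D` there is `((s, u), (t'', w)) ∈ D`, `t' ≤ t''`, `v ≤ w`, with `Θ s t'' u_g w_g` for all `g`; it is a witness for `(t'', E₁)`, so
`t'' = t₁` by maximality. `E₁` is closed for `Θ s t₁`: (a) `(⊥,⊥) ∈ E₁`: otherwise `(t₁, E₁ ∪ {(⊥,⊥)})` would be larger. (b) `(a, b) ∈ E₁`, `a ≤ a'`, suppose `(a', b) ∉ E₁`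
(so `a ≠ a'`); `m = m (t₁, E₁) = B m'`, `m' = m (t₁, E₁ ∪ {(a', b)})`. Change `u_g` from `a` to `a'` for exactly `m'` of the `g` with `u_g = a`, `b ≤ v_g`;
the new element is in `D` (closure) and is a witness for `E₁ ∪ {(a', b)}` (`m - m' ≥ m'`). Contradiction. (c) `(a, b) ∈ E₁`: among the `≥ m` many `g` with `u_g = a`, `b ≤ w_g` some
value `b' = w_g` occurs at least `m / #β` times (and at least once), so `(a, b') ∈ E₁` (otherwise larger: `m / #β ≥ m'`), `b ≤ b'`, `Θ s t₁ a b'`. -/
def BPI_stmt : Prop := ∀ (α₁ β₀ α β : Po), ∃ (M : ℕ)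
  (P : Set ((α₁ × (Fin M → α)) × (β₀ × (Fin M → β))) → Set (α₁ × (β₀ × Set (α × β)))), Monotone P ∧
  ∀ (κ : α₁ → Prop) (Θ : α₁ → β₀ → α → β → Prop) (D : Set ((α₁ × (Fin M → α)) × (β₀ × (Fin M → β)))),
    Cl D (fun su tv => κ su.1 → ∀ g, Θ su.1 tv.1 (su.2 g) (tv.2 g)) →
    Cl (P D) (fun s tE => κ s → Cl tE.2 (fun u v => Θ s tE.1 u v))

/-- BVM (short-medium): `V` is monotone. Proof: induction on `π`, generalizing. For `D ⊆ α × β` let `D' = {(u, v') | ∃ v, (u, v) ∈ D ∧ v' ≤ h v}`; it is closed for `Θ'` if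
`D` is closed for `Θ`, and monotone in `D`. -/
def BVM_stmt : Prop := ∀ (Γ : Po) (π : Pre Γ) (β β' : Po) (h : β → β') (Θ : Γ → β → Prop)
  (Θ' : Γ → β' → Prop), Monotone h → (∀ γ t, Θ γ t → Θ' γ (h t)) → V π β Θ → V π β' Θ'

/-- BPM (short-medium): merging back. Proof: cases on `π`. `one α₁ K`: BPI with `κ = K`. `snoc π' β₁ α₁`: BVM for `h (t, D) = (t, P D)`, BPI with `κ = True`
(`Θ s t u v := Θ ((γ, t₁, s)) t u v`). `M` and `P` from BPI do not depend on `Θ`. -/
def BPM_stmt : Prop := ∀ (Γ : Po) (π : Pre Γ) (β₀ α β : Po), ∃ M : ℕ,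
  ∀ Θ : Γ → β₀ → α → β → Prop,
    V (mg π (α.pow M)).2.1 (β₀.prod (β.pow M)) (fun γ t => ∀ g : Fin M,
      Θ ((mg π (α.pow M)).2.2 γ).1 t.1 (((mg π (α.pow M)).2.2 γ).2 g) (t.2 g)) →
    V π (β₀.prod (α.prod β).set) (fun γ t => Cl t.2 (fun u v => Θ γ t.1 u v))

/-- BMG (short-medium): merging. Proof: cases on `π`. Given the merged universal variable `(x₁, u)` (components are c.e., ACL), use the hypothesis for `x₁` to get `t`, then for every
`g < M` the hypothesis for `u_g` gives `v_g`. If the tuple is constant on an infinite computable set, so are its parts, and all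
`Θ` hold. (For `snoc π' β₁ α₁` this is done behind the prefix `π'`, with BTM.) -/
def BMG_stmt : Prop := ∀ (Γ : Po) (π : Pre Γ) (β₀ α β : Po) (M : ℕ) (Θ : Γ → β₀ → α → β → Prop),
  Tr π (fun γ => ∃ t : ℕ → β₀, CE t ∧ ∀ x : ℕ → α, CE x → ∃ y : ℕ → β, CE y ∧
    Wk (fun p => (γ p, t p, x p, y p)) (fun s => Θ s.1 s.2.1 s.2.2.1 s.2.2.2)) →
  Tr (mg π (α.pow M)).2.1 (fun γ => ∃ t : ℕ → β₀.prod (β.pow M), CE t ∧
    Wk (fun p => (γ p, t p)) (fun s => ∀ g : Fin M,
      Θ ((mg π (α.pow M)).2.2 s.1).1 s.2.1 (((mg π (α.pow M)).2.2 s.1).2 g) (s.2.2 g)))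

/-- BWE (short-medium): (weak) truth implies the criterion. Proof: strong induction on `π.len`. `one`: BBA. `snoc π β₀ α`: take `M` from BPM; BMG (rewrite `Wk`), the induction hypothesis for
`(mg π (α.pow M)).2.1` (its length is `π.len`), BPM. -/
def BWE_stmt : Prop := ∀ (Γ : Po) (π : Pre Γ) (β : Po) (Θ : Γ → β → Prop),
  Tr π (fun γ => ∃ y : ℕ → β, CE y ∧ Wk (fun p => (γ p, y p)) (fun s => Θ s.1 s.2)) → V π β Θ

/-! ## C. From sentences to the criterion -/

/-- CPR (short-medium): products. Proof: induction on `π`, generalizing `M`. If no `Tr π (M l)` holds, choose counterexamples `x_l`; `x p = x_(p % n) (p / n)` is c.e. and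
satisfies `K` almost everywhere. `snoc`: by BTM it is enough: if `∀ x, ∃ l, M l ((γ, y, x) ∘ f_l)` then there is `l` with `∀ x, M l (γ ∘ f_l, y ∘ f_l, x)` (otherwise combine the counterexamples `x_l`);
then the induction hypothesis. `f_l q = q * n + l`. -/
def CPR_stmt : Prop := ∀ (n : ℕ) (Γ : Po) (π : Pre Γ) (M : Fin n → (ℕ → Γ) → Prop), 0 < n →
  Tr π (fun γ => ∃ l : Fin n, M l (fun q => γ (q * n + l))) → ∃ l, Tr π (M l)

/-- CTP (medium): a leading existential block may be replaced by constants. Proof: approximations `A` of `w` (AAP), ATH: infinite computable `R` on which `w` is a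
constant `τ`; `f, h` from AFH. General fact, by induction on the prefix: if `M c → M' (c ∘ f)` for all `c` then `Qm q M c → Qm q M' (c ∘ f)` (for `∀ x'` use
`x' ∘ h`, and `x' ∘ h ∘ f = x'`; for `∃` use `y ∘ f`). Let `x'` be given, use the hypothesis for `x = x' ∘ h`. The matrix: given
`z'`, use `z = z' ∘ h`. If the hypotheses of a clause hold almost everywhere for `z', x'` then they hold almost everywhere for `z, x` (they
depend only on the variables of `z` and `x` by `Sens`, so their truth at `p` is the truth at `h p` for the primed ones, and the fibres of `h` are finite). So a conclusion holds almost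
everywhere, in particular at almost all `f n` (`f` is injective). -/
def CTP_stmt : Prop := ∀ (k m : ℕ) (q : List Bool) (r : ℕ) (cl : List Cla) (w : ℕ → Po.bits k),
  Sens m q.length r cl → CE w → Smid m q r cl (fun p => bx (w p)) →
    ∃ τ : Po.bits k, Smid m q r cl (fun _ => bx τ)

/-- CBR (short-medium): prefixes. Proof: induction on `q`, generalizing `M`; `Qm (q ++ [b]) M c` is `Qm q` followed by the quantifier `b` (lemma, induction on `q`). For `true`:
`snoc π one two` is `∃ y ∈ one ∀ x ∈ two` (the functions into `Unit` are c.e. and unique). -/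
def CBR_stmt : Prop := ∀ (α : Po) (K : α → Prop) (q : List Bool)
  (M : (ℕ → α) → (ℕ → List Prop) → Prop),
  Tr (mkP α K q) (fun γ => M (fun p => rdx q (γ p)) (fun p => rdb q (γ p))) ↔
    ∀ x : ℕ → α, CE x → AE (fun p => K (x p)) → Qm q.reverse (M x) (fun _ => [])

/-- CR1 (medium): the criterion implies truth. Proof: given `x`, let `J` be the set of the clause numbers `i` for which there is a c.e. `z : ℕ → bits r` such that the hypotheses of the
clause hold almost everywhere for `z, x` (they do not depend on the other variables); choose such `z_i`. `X p` = the bits of `x p` followed by those of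
`z_i p` (`False` for `i ∉ J`); it is c.e. and satisfies `KJ` almost everywhere. `lam` from `CritT`, BST, CBR (for this `J` and `lam`): `Qm q.reverse (almost everywhere Th) []`. `Qm` is monotone: if `Th` holds almost
everywhere, `z` is c.e. and the hypotheses of the clause `i` hold almost everywhere, then `i ∈ J`, and `Th` gives the conclusion number `lam i` almost everywhere. -/
def CR1_stmt : Prop := ∀ (m : ℕ) (q : List Bool) (r : ℕ) (cl : List Cla) (τ : ℕ → Prop),
  Sens m q.length r cl → CritT m q r cl τ → Smid m q r cl (fun _ => τ)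

/-- CR2 (medium-long): truth implies the criterion. Proof: let `J` be given and suppose that `V` fails for all `lam`. Let `lam_0, ..., lam_(n-1)` be all functions with `lam i ≤` the number
of conclusions of the clause `i` (for `i < cl.length`; 0 beyond); `n > 0`. By BWE (with `y : ℕ → Unit`), CPR: not `Tr (mkP ..) (∃ l, Wk_l (γ ∘ f_l))`, where
`Wk_l` says that `Th` for `lam_l` holds for all values taken constantly on infinite computable sets. By CBR it is enough to show: for all c.e. `X` with `KJ` almost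
everywhere, `Qm q.reverse (∃ l, Wk_l ((X, c) ∘ f_l)) []`. Let `x` = the first `m` bits of `X`, `z_i` = the bits of `X` for the clause `i`. By `Smid` and
monotonicity of `Qm` we have to show for every `c` with the matrix of `Smid` that some `Wk_l` holds. Suppose not: for every `l` there are an infinite computable `R_l` and values
`X_l, c_l` taken constantly by `(X, c) ∘ f_l` on `R_l` for which `Th` fails: there are `j_l ∈ J` and `ζ_l` such that the hypotheses of the clause `j_l` hold for
`ζ_l, X_l` and the conclusion number `lam_l j_l` does not exist or fails for `ζ_l, c_l, X_l`. CLAIM: there is `j` such that for every conclusion number `a` of the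
clause `j` some `l` has `j_l = j` and `lam_l j = a` (also for `a` = the number of conclusions). Otherwise choose for every `j ∈ J` a counterexample `a_j`; for the `l` with
`lam_l j = a_j` (all `j ∈ J`) we get a contradiction for `j = j_l`. Fix `j` and such `l(a)` for the conclusion numbers `a`. Define `z p = ζ_l(a)` if `p = f_l(a) q` with
`q ∈ R_l(a)` and `z p = z_j p` otherwise: c.e. (ACL (5), finitely many computable sets). The hypotheses of the clause `j` hold almost everywhere for `z, x` (`KJ` for `z_j`). So some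
conclusion `a` holds almost everywhere; but it fails at the infinitely many `f_l(a) q`, `q ∈ R_l(a)`. (`cl[i]? = none` for `i ≥ cl.length`, so such `i ∈ J` do not matter.) -/
def CR2_stmt : Prop := ∀ (m : ℕ) (q : List Bool) (r : ℕ) (cl : List Cla) (τ : ℕ → Prop),
  Sens m q.length r cl → Smid m q r cl (fun _ => τ) → CritT m q r cl τ

/-- CBL (medium): blocks. Proof: `Qm (replicate r true ++ q) M c ↔ ∀ z : ℕ → bits r, CE z → Qm q M (ofFn (z p) ++ c p)`, and the same for `false` (induction on `r`; ACL (6), (7)). `Qm` from the context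
`c₀` is `Qm` from the empty context for the matrix `M (c ++ c₀)`. The contexts at the end of `Qm q.reverse .. []` have length `q.length`. Then compare
`getD` with `stt`. -/
def CBL_stmt : Prop := ∀ (k m : ℕ) (q : List Bool) (r : ℕ) (cl : List Cla),
  Qm (List.replicate k false ++ List.replicate m true ++ q.reverse ++ List.replicate r true)
    (fun c => ClsAE cl (fun p i => (c p).getD i False)) (fun _ => []) ↔
  ∃ w : ℕ → Po.bits k, CE w ∧ Smid m q r cl (fun p => bx (w p))

/-- CSA (medium): sentences over the quotient. Proof: for lists `A` of c.e. sets, `Sat EStar q φ (A.map EStar.mk) ↔ Qm q (fun c => φ.HAE ..) (fun p => A.map (p ∈ ·))`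
by induction on `q` (every element of `EStar` is `mk A`; ACL (6)); the value of a term in `EStar` is `mk` of the value in `CES`, `mk_eq`. -/
def CSA_stmt : Prop := ∀ (q : List Bool) (φ : Fm), Sat EStar q φ [] ↔
  Qm q (fun c => φ.HAE (fun p i => (c p).getD i False)) (fun _ => [])

/-- CCN (short-medium): the normal form. Proof: induction on `φ` for both signs (`ClsAE (φ.cnf false) s ↔ ¬ φ.HAE s`); `dist`: a disjunction of two conjunctions of clauses (`AE` plays no
role, it is propositional logic of the atoms `AE (eqAt ..)`). -/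
def CCN_stmt : Prop :=
  (∀ (φ : Fm) (s : ℕ → ℕ → Prop), φ.HAE s ↔ ClsAE (φ.cnf true) s) ∧
  ∀ (φ : Fm) (F : ℕ → Prop), φ.Pol F true → ∀ d ∈ φ.cnf true, ∀ h ∈ d.1, ∀ i,
    h.1.Occ i ∨ h.2.Occ i → F i

/-! ## D. Decidability of the criterion -/

/-- DST (short-medium): postfix notation. (a) the evaluation; `evStep` on the string of a term with the rest of the stack. (b) the normal form: `cnfS φ.str` is `φ.cnf true` with
the terms replaced by their strings. (c) the strings determine the formula (unique readability; for instance by running a stack machine with values in `Tm ⊕ Fm`, or by (lists) induction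
on the length from the right). -/
def DST_stmt : Prop :=
  (∀ (t : Tm) (s : ℕ → Bool), evS s t.str = true ↔ t.ev (fun i => s i = true)) ∧
  (∀ φ : Fm, cnfS φ.str = (φ.cnf true).map (fun d =>
    (d.1.map (fun h => (h.1.str, h.2.str)), d.2.map (fun h => (h.1.str, h.2.str))))) ∧
  Function.Injective Fm.str

/-- the number coding a bit vector -/
def eb {k : ℕ} (x : Fin k → Prop) : ℕ := by
  classical
  exact ∑ i : Fin k, if x i then 2 ^ (i : ℕ) else 0

/-- isomorphisms of a finite lattice with the bit vectors of length `k`, coded by numbers -/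
structure En (α : Po) (k : ℕ) (e : α → ℕ) : Prop where
  lt : ∀ x, e x < 2 ^ k
  inj : Function.Injective e
  surj : ∀ n, n < 2 ^ k → ∃ x, e x = n
  le : ∀ x y, x ≤ y ↔ subN (e x) (e y)

/-- DEB (short-medium): bit vectors; `tb` of a sum of powers of 2 (`Nat.testBit`, `tb n i ↔ n.testBit i`, `Nat.eq_of_testBit_eq`). -/
def DEB_stmt : Prop := ∀ k : ℕ, En (Po.bits k) k eb ∧ ∀ (x : Po.bits k) (i : ℕ), tb (eb x) i ↔ bx x i

/-- DEN (medium): products with power sets. `e (t, D) = e₀ t * 2 ^ 2 ^ (a + B) + ∑_(n < 2 ^ (a+B), n = e₁ u * 2 ^ B + e₂ v, (u, v) ∈ D) 2 ^ n`. -/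
def DEN_stmt : Prop := ∀ (β₀ α β : Po) (b a B : ℕ) (e₀ : β₀ → ℕ) (e₁ : α → ℕ) (e₂ : β → ℕ),
  En β₀ b e₀ → En α a e₁ → En β B e₂ →
  ∃ e : β₀.prod (α.prod β).set → ℕ, En (β₀.prod (α.prod β).set) (b + 2 ^ (a + B)) e ∧
    ∀ (t : β₀) (D : Set (α × β)), e (t, D) / 2 ^ 2 ^ (a + B) = e₀ t ∧
      ∀ u v, (u, v) ∈ D ↔ tb (e (t, D)) (e₁ u * 2 ^ B + e₂ v)

/-- the number of a tuple -/
def cN {α : Po} (e : α → ℕ) : (q : List Bool) → CT α q → ℕ
  | [], γ => e γ
  | true :: q, γ => by
      classical
      exact 2 * cN e q γ.1 + if γ.2.2 then 1 else 0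
  | false :: q, γ => by
      classical
      exact 2 * cN e q γ.1 + if γ.2.1 then 1 else 0

/-- DNU (medium): `V` and `VN`. Proof: induction on `q`, generalizing `β, B, e₂, Θ, Θn`. `Cl D θ ↔ ClN a B w θn` if the bits of `w` correspond to `D` (DEN; `e ⊥ = 0`; the
quantifiers over the elements correspond to those over the numbers by `En`). For `true`: DEN with `β₀ = one` (`b = 0`), `α = two` (`a = 1`); for `false`:
`β₀ = two` (`b = 1`), `α = one` (`a = 0`). Case `[]`: DEN with `β₀ = one`. -/
def DNU_stmt : Prop := ∀ (α : Po) (a : ℕ) (e₁ : α → ℕ) (K : α → Prop) (Kn : ℕ → Prop) (q : List Bool)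
  (β : Po) (B : ℕ) (e₂ : β → ℕ) (Θ : CT α q → β → Prop) (Θn : ℕ → ℕ → Prop),
  En α a e₁ → En β B e₂ → (∀ x, K x ↔ Kn (e₁ x)) → (∀ γ v, Θ γ v ↔ Θn (cN e₁ q γ) (e₂ v)) →
    (V (mkP α K q) β Θ ↔ VN a Kn q B Θn)

/-- DCR (medium): the two criteria agree. Proof: DNU for `α = bits (m + n r)`, `n = cl.length`, `e₁ = eb` (DEB), `β = one`, `B = 0`. `J` corresponds to the set of its bits (only `i < n` matters), `lam` to its
digits in the basis `bas cl`, which is larger than all numbers of conclusions (replace values of `lam i` beyond the number of conclusions by this number). `eqAt` and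
`evS` by DST (a); the states: `tb (cN e₁ q γ / 2 ^ q.length) j ↔ bx (rdx q γ) j` and `tb (cN e₁ q γ) j ↔ (rdb q γ).getD j False` for `j < q.length`. In `Th` only the values `ζ i`, `i < r`, matter, so
`ζ` may be replaced by numbers `< 2 ^ r`. `τ` corresponds to numbers `< 2 ^ k` by DEB. -/
def DCR_stmt : Prop := ∀ (k m : ℕ) (q : List Bool) (r : ℕ) (cl : List Cla),
  (∃ τ : Po.bits k, CritT m q r cl (bx τ)) ↔
  DecN k m q r (cl.map (fun d =>
    (d.1.map (fun h => (h.1.str, h.2.str)), d.2.map (fun h => (h.1.str, h.2.str)))))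

/-- DPV (medium-long): `VN` is decidable, uniformly in the prefix. Proof: tables. For the part `q'` of `q` which is still to be treated (`q'` a tail of `q`) and the current `B` let `T` be
the list of all numbers `c * 2 ^ B + v`, `c < 2 ^ (a + q'.length)`, `v < 2 ^ B`, for which the current `Θ c v` holds. The first table (`B = 0`) is computable (`Θ` decidable). The
step for `true :: q'`: the new table consists of the `c * 2 ^ B' + w`, `B' = 2 ^ (1+B)`, `c < 2 ^ (a + q'.length)`, `w < 2 ^ B'`, such that `ClN 1 B w (fun u v => (2 * c + u) * 2 ^ B + v ∈ T)`; similarly for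
`false`. This is a primitive recursive function of `(B, length, T)` and the Boolean (bounded quantifiers), so the fold over `q` is
(`Primrec.list_foldl`). At the end: `∃ w < 2 ^ 2 ^ (a+B), ClN a B w (fun u v => K u → u * 2 ^ B + v ∈ T)`. -/
def DPV_stmt : Prop := ∀ (X : Type) [Primcodable X] (a : X → ℕ) (K : X → ℕ → Prop) (q : X → List Bool)
  (Θ : X → ℕ → Prop), Computable a → ComputablePred (fun z : X × ℕ => K z.1 z.2) → Computable q →
    ComputablePred (fun z : X × ℕ => Θ z.1 z.2) →
    ComputablePred (fun x => VN (a x) (K x) (q x) 0 (fun c _ => Θ x c))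

/-- the parameters `(r, M, m), (ζ, b, x, τ)` of the state -/
abbrev SP : Type := (ℕ × ℕ × ℕ) × (ℕ × ℕ × ℕ × ℕ)

/-- DPE (short-medium): the evaluation of strings is primitive recursive (`Primrec.list_foldl`; `tb` by division, powers). -/
def DPE_stmt : Prop := Primrec (fun z : SP × List ℕ =>
  evS (sttN z.1.1.1 z.1.1.2.1 z.1.1.2.2 z.1.2.1 z.1.2.2.1 z.1.2.2.2.1 z.1.2.2.2.2) z.2)

/-- DPC (medium): the computation of the normal form is primitive recursive (`Primrec.list_foldl`, `list_flatMap`, `list_map`, `list_append`, `if`). -/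
def DPC_stmt : Prop := Primrec cnfS

/-- DPK (medium): the conditions are decidable. The parameters are `(((k, m, q, r), cl), (τ, J, lam), c)`. Bounded quantifiers over numbers (`cp_ball`) and over the elements of lists (via `getElem?` and bounded
quantifiers over the index). -/
def DPK_stmt : Prop :=
  ComputablePred (fun z : ((ℕ × ℕ × List Bool × ℕ) × List SCla) × (ℕ × ℕ × ℕ) × ℕ =>
    KN z.1.1.2.1 z.1.1.2.2.1.length z.1.1.2.2.2 z.1.2 z.2.1.2.1 z.2.2) ∧
  ComputablePred (fun z : ((ℕ × ℕ × List Bool × ℕ) × List SCla) × (ℕ × ℕ × ℕ) × ℕ =>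
    ThN z.1.1.2.1 z.1.1.2.2.1.length z.1.1.2.2.2 z.1.2 z.2.1.2.1 z.2.1.2.2 z.2.1.1 z.2.2)

/-- DPD (short-medium): the criterion is decidable: DPV with the parameters `((k, m, q, r), cl), (τ, J, lam)`, bounded quantifiers. -/
def DPD_stmt : Prop :=
  ComputablePred (fun z : (ℕ × ℕ × List Bool × ℕ) × List SCla =>
    DecN z.1.1 z.1.2.1 z.1.2.2.1 z.1.2.2.2 z.2)

/-- FIN (short): THE THEOREM. `D (k, m, mid, r, l) = DecN k m mid.reverse r (cnfS l)` (DPD, DPC, `Primrec.list_reverse`). CSA, CCN, CBL (`q = mid.reverse`, `Sens` from CCN), CTP and CR2, CR1 (for the converse take the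
constant `w`), DCR, DST. -/
def FIN_stmt : Prop :=
  Function.Injective Fm.str ∧
  ∃ D : ℕ × ℕ × List Bool × ℕ × List ℕ → Prop, ComputablePred D ∧
    ∀ (k m : ℕ) (mid : List Bool) (r : ℕ) (φ : Fm),
      φ.Pol (fun i => i < r ∨ (r + mid.length ≤ i ∧ i < r + mid.length + m)) true →
      (D (k, m, mid, r, φ.str) ↔
        Sat EStar (List.replicate k false ++ List.replicate m true ++ mid ++ List.replicate r true) φ [])

end

end PF
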